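import Mathlib

set_option autoImplicit false

/-!
Colour focusing for the multiplicative Cayley graph of `{1 + ρ ^ 2}` on the positive rationals.

Key identity: `(1 + ρ ^ 2) (1 + τ ^ 2) = (1 - ρ τ) ^ 2 (1 + ((ρ + τ) / (1 - ρ τ)) ^ 2)`.
-/

namespace Pool.Agent.TH293.MulRec

open Finset

/-- Colour focusing, finite version. -/
theorem focus (κ : Type) [Finite κ] (r : ℕ) :
    ∃ T F : Finset ℚ, (∀ x ∈ T, 0 < x) ∧ ∀ c : ℚ → κ,
      (∃ x ∈ T, ∃ y ∈ T, c x = c y ∧ ∃ ρ : ℚ, 0 < ρ ∧ x = y * (1 + ρ ^ 2)) ∨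
      (∃ Y ∈ T, ∃ ρ : Fin r → ℚ, (∀ i, 0 < ρ i ∧ ρ i ∈ F) ∧ (∀ i, Y * (1 + ρ i ^ 2) ∈ T) ∧
        Function.Injective (fun i => c (Y * (1 + ρ i ^ 2)))) := by
  classical
  induction r with
  | zero =>
    refine ⟨{1}, ∅, by simp, fun c => Or.inr ⟨1, by simp, fun i => i.elim0, fun i => i.elim0,
      fun i => i.elim0, fun i => i.elim0⟩⟩
  | succ r ih =>
    obtain ⟨T, F, hT, h⟩ := ih
    -- an upper bound of the slopes
    obtain ⟨L, hL0, hL⟩ : ∃ L : ℚ, 0 < L ∧ ∀ ρ ∈ F, ρ < L := by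
      refine ⟨∑ ρ ∈ F, |ρ| + 1, by positivity, fun ρ hρ => ?_⟩
      have h1 : |ρ| ≤ ∑ ρ ∈ F, |ρ| :=
        Finset.single_le_sum (f := fun ρ : ℚ => |ρ|) (fun _ _ => abs_nonneg _) hρ
      have h2 := le_abs_self ρ
      linarith
    -- the alphabet
    let A : Finset ℚ := insert L (F.image fun ρ => L - ρ)
    have hA : ∀ s ∈ A, 0 < s := by
      intro s hs
      rcases Finset.mem_insert.1 hs with rfl | hs
      · exact hL0
      · obtain ⟨ρ, hρ, rfl⟩ := Finset.mem_image.1 hs
        have := hL ρ hρ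
        linarith
    obtain ⟨ι, hι, hHJ⟩ := Combinatorics.Line.exists_mono_in_high_dimension A (T → κ)
    let Qs : Finset ℚ := (Finset.univ : Finset (ι → A)).image fun v => ∑ i, (v i : ℚ)
    let Ps : Finset ℚ := (Finset.range (Fintype.card ι + 1)).image fun n : ℕ => (n : ℚ)
    let T' : Finset ℚ := (((T ×ˢ Qs).image fun z => z.1 / z.2 ^ 2) ∪
      ((T ×ˢ (Qs ×ˢ Ps)).image fun z => z.1 / z.2.1 ^ 2 / (1 + (z.2.2 / z.2.1) ^ 2))).filter
        fun x => 0 < x
    let F' : Finset ℚ := ((Ps ×ˢ Qs).image fun z => z.1 / z.2) ∪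
      ((F ×ˢ (Ps ×ˢ Qs)).image fun z => (z.1 + z.2.1 / z.2.2) / (1 - z.1 * (z.2.1 / z.2.2)))
    refine ⟨T', F', fun x hx => (Finset.mem_filter.1 hx).2, fun c => ?_⟩
    obtain ⟨l, hl⟩ := hHJ fun v X => c (X.1 / (∑ i, (v i : ℚ)) ^ 2)
    obtain ⟨pat, hpat⟩ := hl
    -- the number of active coordinates
    let act : Finset ι := {i | l.idxFun i = none}
    have hact : 0 < act.card := by
      obtain ⟨i, hi⟩ := l.proper
      exact Finset.card_pos.2 ⟨i, by simp [act, hi]⟩
    obtain ⟨p, hpdef⟩ : ∃ p : ℚ, p = (act.card : ℚ) := ⟨_, rfl⟩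
    have hp : 0 < p := by rw [hpdef]; exact_mod_cast hact
    have hpPs : p ∈ Ps := by
      refine Finset.mem_image.2 ⟨act.card, ?_, hpdef.symm⟩
      rw [Finset.mem_range]
      exact Nat.lt_succ_of_le (Finset.card_le_univ act)
    have hLA : L ∈ A := Finset.mem_insert_self _ _
    let sL : A := ⟨L, hLA⟩
    obtain ⟨q, hqdef⟩ : ∃ q : ℚ, q = ∑ i, ((l sL) i : ℚ) := ⟨_, rfl⟩
    have hsumQ : ∀ s : A, (∑ i, ((l s) i : ℚ)) ∈ Qs := fun s =>
      Finset.mem_image.2 ⟨l s, Finset.mem_univ _, rfl⟩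
    have hne : (Finset.univ : Finset ι).Nonempty := by
      obtain ⟨i, hi⟩ := l.proper
      exact ⟨i, Finset.mem_univ _⟩
    have hsumpos : ∀ s : A, 0 < (∑ i, ((l s) i : ℚ)) := fun s =>
      Finset.sum_pos (fun i _ => hA _ ((l s) i).2) hne
    have hq : 0 < q := by rw [hqdef]; exact hsumpos sL
    have hqQs : q ∈ Qs := by rw [hqdef]; exact hsumQ sL
    -- the sum for a general letter
    have hsum : ∀ s : A, (∑ i, ((l s) i : ℚ)) = q - p * (L - s) := by
      intro s
      have h1 : ∀ i, ((l s) i : ℚ) = ((l sL) i : ℚ) - (if i ∈ act then (L - (s : ℚ)) else 0) := by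
        intro i
        by_cases hi : l.idxFun i = none
        · have hi' : i ∈ act := by simp [act, hi]
          rw [if_pos hi', Combinatorics.Line.apply_none _ _ _ hi,
            Combinatorics.Line.apply_none _ _ _ hi]
          simp [sL]
        · have hi' : i ∉ act := by simp [act, hi]
          rw [if_neg hi', sub_zero]
          obtain ⟨t, ht⟩ := Option.ne_none_iff_exists'.1 hi
          rw [Combinatorics.Line.apply_some ht, Combinatorics.Line.apply_some ht]
      rw [Finset.sum_congr rfl fun i _ => h1 i, Finset.sum_sub_distrib, Finset.sum_ite_mem,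
        Finset.univ_inter, Finset.sum_const, nsmul_eq_mul, ← hqdef, ← hpdef]
    -- translate of the pattern
    have hcol : ∀ s : A, ∀ X ∈ T, c (X / (∑ i, ((l s) i : ℚ)) ^ 2) = c (X / q ^ 2) := by
      intro s X hX
      have h1 := congrFun ((hpat s).trans (hpat sL).symm) ⟨X, hX⟩
      rw [hqdef]
      exact h1
    rcases h fun x => c (x / q ^ 2) with ⟨x, hx, y, hy, hc, ρ, hρ, hxy⟩ | ⟨Y, hY, ρ, hρ, hX, hinj⟩
    · left
      refine ⟨x / q ^ 2, ?_, y / q ^ 2, ?_, hc, ρ, hρ, by rw [hxy]; ring⟩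
      · refine Finset.mem_filter.2 ⟨Finset.mem_union_left _ (Finset.mem_image.2
          ⟨(x, q), Finset.mem_product.2 ⟨hx, hqQs⟩, rfl⟩), ?_⟩
        have := hT x hx
        positivity
      · refine Finset.mem_filter.2 ⟨Finset.mem_union_left _ (Finset.mem_image.2
          ⟨(y, q), Finset.mem_product.2 ⟨hy, hqQs⟩, rfl⟩), ?_⟩
        have := hT y hy
        positivity
    · have hYpos := hT Y hY
      obtain ⟨τ, hτdef⟩ : ∃ τ : ℚ, τ = p / q := ⟨_, rfl⟩
      have hτ : 0 < τ := by rw [hτdef]; positivity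
      -- the slopes are small
      have hsmall : ∀ i, 0 < q - p * ρ i := by
        intro i
        have hs : L - ρ i ∈ A := Finset.mem_insert_of_mem (Finset.mem_image.2 ⟨ρ i, (hρ i).2, rfl⟩)
        have h1 := hsumpos ⟨L - ρ i, hs⟩
        rw [hsum] at h1
        simpa using h1
      have hone : ∀ i, 0 < 1 - ρ i * τ := by
        intro i
        have h1 : 1 - ρ i * τ = (q - p * ρ i) / q := by
          rw [hτdef]
          field_simp
        rw [h1]
        exact div_pos (hsmall i) hq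
      -- the new focus and the new slopes
      obtain ⟨Y', hY'def⟩ : ∃ Y' : ℚ, Y' = Y / q ^ 2 / (1 + τ ^ 2) := ⟨_, rfl⟩
      let ρ' : Fin (r + 1) → ℚ := Fin.cons τ fun i => (ρ i + τ) / (1 - ρ i * τ)
      have hY'0 : Y' * (1 + τ ^ 2) = Y / q ^ 2 := by
        rw [hY'def]
        field_simp
      have hY'i : ∀ i, Y' * (1 + ((ρ i + τ) / (1 - ρ i * τ)) ^ 2) =
          Y * (1 + ρ i ^ 2) / (q - p * ρ i) ^ 2 := by
        intro i
        have h1 := (hone i).ne'
        have h2 := (hsmall i).ne'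
        have h3 : q - p * ρ i = q * (1 - ρ i * τ) := by
          rw [hτdef]
          field_simp
        have hw : (1 - ρ i * τ) ^ 2 + (ρ i + τ) ^ 2 = (1 + ρ i ^ 2) * (1 + τ ^ 2) := by ring
        rw [h3]
        rw [hY'def]
        have h4 : 1 + τ ^ 2 ≠ 0 := by positivity
        have h5 : q ≠ 0 := hq.ne'
        generalize 1 - ρ i * τ = w at *
        have h6 : Y / q ^ 2 / (1 + τ ^ 2) * (1 + ((ρ i + τ) / w) ^ 2) =
            (Y / q ^ 2 / (1 + τ ^ 2)) * (w ^ 2 + (ρ i + τ) ^ 2) / w ^ 2 := by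
          field_simp
        rw [h6, hw]
        field_simp
      have hcoli : ∀ i, c (Y' * (1 + ((ρ i + τ) / (1 - ρ i * τ)) ^ 2)) =
          c (Y * (1 + ρ i ^ 2) / q ^ 2) := by
        intro i
        rw [hY'i]
        have hs : L - ρ i ∈ A := Finset.mem_insert_of_mem (Finset.mem_image.2 ⟨ρ i, (hρ i).2, rfl⟩)
        have h1 := hcol ⟨L - ρ i, hs⟩ _ (hX i)
        rw [hsum] at h1
        simpa using h1
      have hmemi : ∀ i, Y' * (1 + ((ρ i + τ) / (1 - ρ i * τ)) ^ 2) ∈ T' := by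
        intro i
        have hs : L - ρ i ∈ A := Finset.mem_insert_of_mem (Finset.mem_image.2 ⟨ρ i, (hρ i).2, rfl⟩)
        have h1 := hsumQ ⟨L - ρ i, hs⟩
        rw [hsum] at h1
        have h2 : q - p * ρ i ∈ Qs := by simpa using h1
        have h3 := hsmall i
        have h4 := hT _ (hX i)
        rw [hY'i]
        refine Finset.mem_filter.2 ⟨Finset.mem_union_left _ (Finset.mem_image.2
          ⟨(Y * (1 + ρ i ^ 2), q - p * ρ i), Finset.mem_product.2 ⟨hX i, h2⟩, rfl⟩), ?_⟩
        positivity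
      have hmem0 : Y / q ^ 2 ∈ T' := by
        refine Finset.mem_filter.2 ⟨Finset.mem_union_left _ (Finset.mem_image.2
          ⟨(Y, q), Finset.mem_product.2 ⟨hY, hqQs⟩, rfl⟩), ?_⟩
        positivity
      have hmemY : Y' ∈ T' := by
        rw [hY'def, hτdef]
        refine Finset.mem_filter.2 ⟨Finset.mem_union_right _ (Finset.mem_image.2
          ⟨(Y, q, p), Finset.mem_product.2 ⟨hY, Finset.mem_product.2 ⟨hqQs, hpPs⟩⟩, rfl⟩), ?_⟩
        exact div_pos (div_pos hYpos (pow_pos hq 2)) (by positivity)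
      by_cases hex : ∃ i, c (Y / q ^ 2) = c (Y * (1 + ρ i ^ 2) / q ^ 2)
      · left
        obtain ⟨i, hi⟩ := hex
        refine ⟨Y * (1 + ρ i ^ 2) / q ^ 2, ?_, Y / q ^ 2, hmem0, hi.symm, ρ i, (hρ i).1, by ring⟩
        refine Finset.mem_filter.2 ⟨Finset.mem_union_left _ (Finset.mem_image.2
          ⟨(Y * (1 + ρ i ^ 2), q), Finset.mem_product.2 ⟨hX i, hqQs⟩, rfl⟩), ?_⟩
        positivity
      · right
        push Not at hex
        refine ⟨Y', hmemY, ρ', ?_, ?_, ?_⟩
        · intro i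
          refine Fin.cases ?_ (fun i => ?_) i
          · refine ⟨hτ, Finset.mem_union_left _ (Finset.mem_image.2
              ⟨(p, q), Finset.mem_product.2 ⟨hpPs, hqQs⟩, hτdef.symm⟩)⟩
          · refine ⟨?_, Finset.mem_union_right _ (Finset.mem_image.2
              ⟨(ρ i, p, q), Finset.mem_product.2 ⟨(hρ i).2,
                Finset.mem_product.2 ⟨hpPs, hqQs⟩⟩, by simp only [ρ', Fin.cons_succ, hτdef]⟩)⟩
            have h1 := (hρ i).1
            have h2 := hone i
            simp only [ρ', Fin.cons_succ]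
            exact div_pos (add_pos h1 hτ) h2
        · intro i
          refine Fin.cases ?_ (fun i => ?_) i
          · simp only [ρ', Fin.cons_zero]
            rw [hY'0]
            exact hmem0
          · simp only [ρ', Fin.cons_succ]
            exact hmemi i
        · intro i j
          refine Fin.cases ?_ (fun i => ?_) i
          · refine Fin.cases ?_ (fun j => ?_) j
            · intro _; rfl
            · intro hij
              simp only [ρ', Fin.cons_zero, Fin.cons_succ] at hij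
              rw [hY'0, hcoli] at hij
              exact absurd hij (hex j)
          · refine Fin.cases ?_ (fun j => ?_) j
            · intro hij
              simp only [ρ', Fin.cons_zero, Fin.cons_succ] at hij
              rw [hY'0, hcoli] at hij
              exact absurd hij.symm (hex i)
            · intro hij
              simp only [ρ', Fin.cons_succ] at hij
              rw [hcoli, hcoli] at hij
              have h1 : i = j := hinj hij
              rw [h1]

/-- For every finite colouring of the rationals there are two positive rationals of the same colour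
with quotient `1 + ρ ^ 2`, inside a finite set depending only on the set of colours. -/
theorem rat_version (κ : Type) [Finite κ] :
    ∃ T : Finset ℚ, (∀ x ∈ T, 0 < x) ∧ ∀ c : ℚ → κ,
      ∃ x ∈ T, ∃ y ∈ T, c x = c y ∧ ∃ ρ : ℚ, 0 < ρ ∧ x = y * (1 + ρ ^ 2) := by
  obtain ⟨T, F, hT, h⟩ := focus κ (Nat.card κ + 1)
  refine ⟨T, hT, fun c => ?_⟩
  rcases h c with h | ⟨Y, -, ρ, -, -, hinj⟩
  · exact h
  · exfalso
    have := Nat.card_le_card_of_injective _ hinj
    simp at this

/-- The integer version. -/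
theorem nat_version (κ : Type) [Finite κ] (c : ℕ → κ) :
    ∃ x y m n : ℕ, 0 < x ∧ 0 < y ∧ 0 < m ∧ 0 < n ∧ c x = c y ∧
        x * m ^ 2 = y * (m ^ 2 + n ^ 2) := by
  obtain ⟨T, hT, h⟩ := rat_version κ
  let D : ℕ := ∏ x ∈ T, x.den
  have hD : 0 < D := Finset.prod_pos fun x _ => x.den_pos
  obtain ⟨x, hx, y, hy, hc, ρ, hρ, hxy⟩ := h fun x => c (((D : ℚ) * x).num.toNat)
  have key : ∀ z ∈ T, ((((D : ℚ) * z).num.toNat : ℕ) : ℚ) = D * z := by
    intro z hz
    have h1 : z.den ∣ D := Finset.dvd_prod_of_mem _ hz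
    obtain ⟨k, hk⟩ := h1
    have h2 : (D : ℚ) * z = ((k * z.num : ℤ) : ℚ) := by
      rw [hk]
      push_cast
      have h3 : (z.den : ℚ) * z = z.num := by
        rw [mul_comm]; exact Rat.mul_den_eq_num z
      linear_combination (k : ℚ) * h3
    have h4 : 0 < (D : ℚ) * z := by
      have := hT z hz
      positivity
    rw [h2] at h4 ⊢
    rw [Rat.num_intCast]
    have h5 : 0 < k * z.num := by exact_mod_cast h4
    have h6 : (((k * z.num).toNat : ℤ)) = k * z.num := Int.toNat_of_nonneg h5.le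
    exact_mod_cast h6
  have hkx := key x hx
  have hky := key y hy
  have hDx : 0 < (D : ℚ) * x := by
    have := hT x hx
    positivity
  have hDy : 0 < (D : ℚ) * y := by
    have := hT y hy
    positivity
  have hnum : 0 < ρ.num := Rat.num_pos.2 hρ
  have hn : ((ρ.num.toNat : ℕ) : ℚ) = ρ * ρ.den := by
    rw [Rat.mul_den_eq_num]
    have h6 : ((ρ.num.toNat : ℤ)) = ρ.num := Int.toNat_of_nonneg hnum.le
    exact_mod_cast h6
  refine ⟨((D : ℚ) * x).num.toNat, ((D : ℚ) * y).num.toNat, ρ.den, ρ.num.toNat, ?_, ?_, ρ.den_pos,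
    ?_, hc, ?_⟩
  · rw [← hkx] at hDx
    exact_mod_cast hDx
  · rw [← hky] at hDy
    exact_mod_cast hDy
  · omega
  · have h7 : ((((D : ℚ) * x).num.toNat : ℕ) : ℚ) * (ρ.den : ℚ) ^ 2 =
        ((((D : ℚ) * y).num.toNat : ℕ) : ℚ) * ((ρ.den : ℚ) ^ 2 + ((ρ.num.toNat : ℕ) : ℚ) ^ 2) := by
      rw [hkx, hky, hn, hxy]
      ring
    exact_mod_cast h7

end Pool.Agent.TH293.MulRec
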