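import Mathlib
import Pool.Agent.TH881.RK.Defs
import Pool.Agent.TH881.Per

/-! Project RK, piece N: the law near density zero (helper293). -/

set_option autoImplicit false

namespace Pool.Agent.TH293.J3813

open Finset Filter Topology
open Pool.Agent.TH881
open Pool.Agent.TH881.RG
open Pool.Agent.TH881.RQ
open Pool.Agent.TH881.RK
open Pool.Agent.H373R2.T7

lemma AA_pos (pr : Bool) (w : ℕ) : (0 : ℝ) < (AA pr w).card := by
  classical
  have h : 0 < (AA pr w).card := by
    apply card_pos.2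
    refine ⟨1, ?_⟩
    unfold AA
    rw [mem_filter]
    exact ⟨mem_univ _, fun _ => isUnit_one⟩
  exact_mod_cast h

lemma cnt_pos {S : Set ℕ} (h : 2 ∈ S) {n : ℕ} (hn : 2 ≤ n) : 0 < cnt S n := by
  classical
  unfold cnt
  apply card_pos.2
  refine ⟨2, ?_⟩
  rw [mem_filter, mem_Icc]
  exact ⟨⟨by norm_num, hn⟩, h⟩

lemma relq_un (pr : Bool) : relq pr Set.univ = 1 := by
  have h1 : ∀ᶠ n : ℕ in atTop, (cnt {m | isArg pr m ∧ m ∈ Set.univ} n : ℝ) / (cnt {m | isArg pr m} n : ℝ) = 1 := by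
    filter_upwards [eventually_ge_atTop 2] with n hn
    have h2 : {m : ℕ | isArg pr m ∧ m ∈ Set.univ} = {m | isArg pr m} := by
      ext p
      constructor
      · exact fun h => h.1
      · exact fun h => ⟨h, Set.mem_univ p⟩
    rw [h2]
    have h3 : 0 < cnt {m | isArg pr m} n :=
      cnt_pos (S := {m | isArg pr m}) (show isArg pr 2 from fun _ => Nat.prime_two) hn
    have h4 : (0 : ℝ) < cnt {m | isArg pr m} n := by exact_mod_cast h3
    exact div_self h4.ne'
  unfold relq
  rw [liminf_congr h1]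
  exact liminf_const 1

lemma cntk_le {m : ℕ} (S : Set (Fin m → ℕ)) (x : ℕ) : (cntk S x : ℝ) ≤ (x : ℝ) ^ m := by
  classical
  have h : cntk S x ≤ x ^ m := by
    unfold cntk
    refine (card_filter_le _ _).trans ?_
    rw [Fintype.card_piFinset]
    simp
  exact_mod_cast h

lemma le_ldk {m : ℕ} {S : Set (Fin m → ℕ)} {c : ℝ}
    (h : ∀ᶠ x : ℕ in atTop, c ≤ (cntk S x : ℝ) / (x : ℝ) ^ m) : c ≤ ldk S := by
  unfold ldk
  refine le_liminf_of_le ?_ h
  have hb : IsBoundedUnder (· ≤ ·) atTop (fun x : ℕ => (cntk S x : ℝ) / (x : ℝ) ^ m) := by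
    refine isBoundedUnder_of ⟨1, fun x => ?_⟩
    exact div_le_one_of_le₀ (cntk_le S x) (by positivity)
  exact hb.isCoboundedUnder_ge

lemma ldk_nonneg {m : ℕ} (S : Set (Fin m → ℕ)) : 0 ≤ ldk S :=
  le_ldk (Eventually.of_forall fun x => by positivity)

lemma FFk_bdd (pr : Bool) (m : ℕ) (β : ℝ) :
    BddBelow {d | ∃ A : Set ℕ, β ≤ relq pr A ∧ d = ldk (hitk pr m A)} := by
  refine ⟨0, ?_⟩
  rintro x ⟨A, _, rfl⟩
  exact ldk_nonneg _

/-- counting vectors in residue classes -/
lemma cnt_classes {m : ℕ} (W : ℕ) (hW : 0 < W) (C : Finset (Fin m → ZMod W)) (X : ℕ)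
    (hX : W ≤ X) (S : Set (Fin m → ℕ)) (hS : ∀ h, h ∈ S ↔ (fun j => (h j : ZMod W)) ∈ C) :
    (C.card : ℝ) * ((X : ℝ) / W - 1) ^ m ≤ cntk S X := by
  classical
  have hne : NeZero W := ⟨hW.ne'⟩
  have hWR : (0 : ℝ) < W := by exact_mod_cast hW
  have hX1 : 0 ≤ (X : ℝ) / W - 1 := by
    rw [sub_nonneg, one_le_div hWR]
    exact_mod_cast hX
  have h1 : (cntk S X : ℝ) =
      ∑ t ∈ C, ∏ j, ((((Icc 1 X).filter (fun n : ℕ => n ≡ (t j).val [MOD W])).card : ℕ) : ℝ) := by
    unfold cntk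
    rw [card_eq_sum_card_fiberwise (t := C) (f := fun h : Fin m → ℕ => fun j => (h j : ZMod W))]
    · push_cast
      refine sum_congr rfl fun t ht => ?_
      rw [← Nat.cast_prod, ← Fintype.card_piFinset]
      congr 2
      ext h
      rw [mem_filter, mem_filter, Fintype.mem_piFinset, Fintype.mem_piFinset]
      constructor
      · rintro ⟨⟨h2, -⟩, h4⟩ j
        rw [mem_filter]
        refine ⟨h2 j, ?_⟩
        rw [← ZMod.natCast_eq_natCast_iff, ZMod.natCast_zmod_val]
        exact congrFun h4 j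
      · intro h2
        have h4 : (fun j => (h j : ZMod W)) = t := by
          funext j
          have h3 := (mem_filter.1 (h2 j)).2
          rw [← ZMod.natCast_eq_natCast_iff, ZMod.natCast_zmod_val] at h3
          exact h3
        refine ⟨⟨fun j => (mem_filter.1 (h2 j)).1, ?_⟩, h4⟩
        rw [hS, h4]
        exact ht
    · intro h hh
      exact (hS h).1 (mem_filter.1 hh).2
  rw [h1, ← nsmul_eq_mul]
  refine card_nsmul_le_sum _ _ _ fun t _ => ?_
  calc ((X : ℝ) / W - 1) ^ m = ∏ _j : Fin m, ((X : ℝ) / W - 1) := by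
        rw [prod_const, card_univ, Fintype.card_fin]
    _ ≤ _ := by
        refine prod_le_prod (fun _ _ => hX1) fun j _ => ?_
        have := (abs_le.1 (card_class W X (t j).val hW)).1
        linarith

lemma cnt_split {m : ℕ} {S S1 S2 : Set (Fin m → ℕ)} (h : ∀ x ∈ S, x ∈ S1 ∨ x ∈ S2) (X : ℕ) :
    (cntk S X : ℝ) ≤ cntk S1 X + cntk S2 X := by
  classical
  rw [← Nat.cast_add]
  refine Nat.cast_le.2 ?_
  unfold cntk
  refine le_trans (card_le_card ?_) (card_union_le _ _)
  intro x hx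
  rw [mem_union, mem_filter, mem_filter]
  rw [mem_filter] at hx
  rcases h x hx.2 with h1 | h1
  · exact Or.inl ⟨hx.1, h1⟩
  · exact Or.inr ⟨hx.1, h1⟩

/-- the lower bound of the lower density from the global theorem -/
lemma lower {pr : Bool} {m : ℕ} (h3 : StGlob pr m) {β c : ℝ} (hβ : 0 < β) (hβ1 : β ≤ 1)
    (hc : 0 ≤ c)
    (hloc : ∀ w : ℕ, ∀ B ⊆ AA pr w, β / 2 * (AA pr w).card ≤ B.card →
      c ≤ ((sumk m w B).card : ℝ) / (Wp w : ℝ) ^ m)
    {A : Set ℕ} (hA : β ≤ relq pr A) : c ≤ ldk (hitk pr m A) := by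
  classical
  refine le_of_forall_pos_le_add fun ε hε => ?_
  rw [← sub_le_iff_le_add]
  obtain ⟨w, hw⟩ := h3 A β (β / 2) (ε / 2) (by positivity) (by linarith) hβ1 (by positivity) hA
  obtain ⟨X0, hX0⟩ := hw w le_rfl
  have hW : 0 < Wp w := Wp_pos w
  have hWR : (0 : ℝ) < Wp w := by exact_mod_cast hW
  -- `c (1 - W/X)^m → c`
  have ht : Tendsto (fun X : ℕ => c * (1 - (Wp w : ℝ) / X) ^ m) atTop (𝓝 c) := by
    have h4 : Tendsto (fun X : ℕ => (Wp w : ℝ) / (X : ℝ)) atTop (𝓝 0) :=
      tendsto_const_div_atTop_nhds_zero_nat _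
    have h5 : Tendsto (fun X : ℕ => c * (1 - (Wp w : ℝ) / X) ^ m) atTop (𝓝 (c * (1 - 0) ^ m)) :=
      ((tendsto_const_nhds.sub h4).pow m).const_mul c
    simpa using h5
  have hev : ∀ᶠ X : ℕ in atTop, c - ε / 2 < c * (1 - (Wp w : ℝ) / X) ^ m :=
    ht.eventually (lt_mem_nhds (by linarith))
  refine le_ldk ?_
  filter_upwards [hev, eventually_ge_atTop X0, eventually_ge_atTop (Wp w), eventually_ge_atTop 1]
    with X hX1 hX2 hX3 hX4
  obtain ⟨B, hB, hBc, hcnt⟩ := hX0 X hX2
  have hXR : (0 : ℝ) < X := by exact_mod_cast hX4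
  have hBc' : β / 2 * (AA pr w).card ≤ B.card := by
    have e : β - β / 2 = β / 2 := by ring
    rwa [e] at hBc
  have hl := hloc w B hB hBc'
  have h4 := cnt_classes (m := m) (Wp w) hW (sumk m w B) X hX3
    {h : Fin m → ℕ | (fun j => (h j : ZMod (Wp w))) ∈ sumk m w B} (fun h => Iff.rfl)
  -- splitting
  have h5 : (cntk {h : Fin m → ℕ | (fun j => (h j : ZMod (Wp w))) ∈ sumk m w B} X : ℝ) ≤
      cntk (hitk pr m A) X +
      cntk {h : Fin m → ℕ | (fun j => (h j : ZMod (Wp w))) ∈ sumk m w B ∧ h ∉ hitk pr m A} X := by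
    refine cnt_split (fun h hh => ?_) X
    by_cases hm : h ∈ hitk pr m A
    · exact Or.inl hm
    · exact Or.inr ⟨hh, hm⟩
  rw [le_div_iff₀ (by positivity)]
  have h6 : c * (Wp w : ℝ) ^ m * ((X : ℝ) / Wp w - 1) ^ m ≤
      ((sumk m w B).card : ℝ) * ((X : ℝ) / Wp w - 1) ^ m := by
    rw [le_div_iff₀ (by positivity)] at hl
    have h7 : 0 ≤ (X : ℝ) / Wp w - 1 := by
      rw [sub_nonneg, one_le_div hWR]
      exact_mod_cast hX3
    exact mul_le_mul_of_nonneg_right hl (by positivity)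
  have h7 : c * (Wp w : ℝ) ^ m * ((X : ℝ) / Wp w - 1) ^ m =
      (c * (1 - (Wp w : ℝ) / X) ^ m) * (X : ℝ) ^ m := by
    rw [mul_assoc, ← mul_pow, mul_assoc, ← mul_pow]
    congr 2
    field_simp
  have h8 : (c - ε / 2) * (X : ℝ) ^ m ≤ (c * (1 - (Wp w : ℝ) / X) ^ m) * (X : ℝ) ^ m :=
    mul_le_mul_of_nonneg_right hX1.le (by positivity)
  have h9 : (c - ε) * (X : ℝ) ^ m = (c - ε / 2) * (X : ℝ) ^ m - ε / 2 * (X : ℝ) ^ m := by ring
  rw [h9]
  linarith

/-- `log log (2 / β)` and `log log (1 / β)` are asymptotically equal -/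
lemma loglog_tendsto : Tendsto (fun β : ℝ =>
    Real.log (Real.log (1 / β)) / Real.log (Real.log (1 / (β / 2)))) (𝓝[>] 0) (𝓝 1) := by
  -- with `y = log (1/β) → ∞`
  have hy : Tendsto (fun β : ℝ => Real.log (1 / β)) (𝓝[>] 0) atTop := by
    have h1 : Tendsto (fun β : ℝ => 1 / β) (𝓝[>] 0) atTop := by
      simpa using tendsto_inv_nhdsGT_zero (𝕜 := ℝ)
    exact Real.tendsto_log_atTop.comp h1
  have hm : Tendsto (fun y : ℝ => Real.log y / Real.log (y + Real.log 2)) atTop (𝓝 1) := by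
    have hl2 : 0 < Real.log 2 := Real.log_pos (by norm_num)
    -- `log (y + log 2) = log y + log (1 + log 2 / y)`
    have h2 : Tendsto (fun y : ℝ => 1 + Real.log (1 + Real.log 2 / y) / Real.log y) atTop
        (𝓝 (1 + 0)) := by
      refine tendsto_const_nhds.add ?_
      have h3 : Tendsto (fun y : ℝ => Real.log (1 + Real.log 2 / y)) atTop (𝓝 0) := by
        have h4 : Tendsto (fun y : ℝ => 1 + Real.log 2 / y) atTop (𝓝 (1 + 0)) :=
          tendsto_const_nhds.add (tendsto_const_nhds.div_atTop tendsto_id)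
        have h5 := (Real.continuousAt_log (x := 1 + 0) (by norm_num)).tendsto.comp h4
        simpa [Function.comp_def] using h5
      exact h3.div_atTop Real.tendsto_log_atTop
    rw [add_zero] at h2
    have h6 := h2.inv₀ one_ne_zero
    rw [inv_one] at h6
    refine h6.congr' ?_
    filter_upwards [eventually_gt_atTop 1] with y hy1
    have hy0 : 0 < y := by linarith
    have hly : 0 < Real.log y := Real.log_pos hy1
    have h7 : Real.log (y + Real.log 2) = Real.log y + Real.log (1 + Real.log 2 / y) := by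
      rw [← Real.log_mul hy0.ne' (by positivity)]
      congr 1
      field_simp
    rw [h7]
    rw [← inv_div]
    field_simp
  have h8 := hm.comp hy
  refine h8.congr' ?_
  filter_upwards [self_mem_nhdsWithin] with β hβ
  have hβ0 : (0 : ℝ) < β := hβ
  simp only [Function.comp_apply]
  congr 2
  rw [← Real.log_mul (by positivity) (by norm_num)]
  congr 1
  field_simp

theorem law_zero (pr : Bool) (m : ℕ) (hm : 1 ≤ m) (h1 : StZeroK pr m) (h2 : StZeroUpK pr m)
    (h3 : StGlob pr m) (h4 : StUnion pr m) :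
    Tendsto (fun β : ℝ => Real.log (Real.log (1 / β)) ^ m * FFk pr m β) (𝓝[>] 0)
      (𝓝 (Real.exp (-(m * Real.eulerMascheroniConstant)))) := by
  set c : ℝ := Real.exp (-(m * Real.eulerMascheroniConstant)) with hc
  have hc0 : 0 < c := Real.exp_pos _
  have hlt16 : (0 : ℝ) < 1 / 16 := by norm_num
  have hpos : ∀ β : ℝ, 0 < β → β ≤ 1 / 16 → 0 < Real.log (Real.log (1 / β)) := by
    intro β hb0 hb16
    apply Real.log_pos
    have h3 : (16 : ℝ) ≤ 1 / β := by
      rw [le_div_iff₀ hb0]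
      linarith
    have h2 : Real.exp 2 < 1 / β := by
      have e1 := Real.exp_one_lt_d9
      have e2 : Real.exp 2 = Real.exp 1 * Real.exp 1 := by rw [← Real.exp_add]; norm_num
      have e3 := Real.exp_pos 1
      rw [e2]
      nlinarith
    have h4 := Real.log_lt_log (Real.exp_pos _) h2
    rw [Real.log_exp] at h4
    linarith
  rw [tendsto_order]
  constructor
  · -- lower bound
    intro a ha
    obtain ⟨d, hd0, hda, hdc⟩ : ∃ d : ℝ, 0 < d ∧ a < c - d ∧ 0 < c - d := by
      refine ⟨min ((c - a) / 2) (c / 2), lt_min (by linarith) (by linarith), ?_, ?_⟩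
      · have := min_le_left ((c - a) / 2) (c / 2)
        linarith
      · have := min_le_right ((c - a) / 2) (c / 2)
        linarith
    obtain ⟨β0, hβ0, h1⟩ := h1 d hd0
    have hr := (loglog_tendsto.pow m).const_mul (c - d)
    rw [one_pow, mul_one] at hr
    have hev := hr.eventually (lt_mem_nhds hda)
    have hβ3 : 0 < min β0 (1 / 16) := by positivity
    filter_upwards [hev, Ioo_mem_nhdsGT hβ3] with β hr hβ
    obtain ⟨hb0, hb1⟩ := hβ
    have hb2 : β ≤ β0 := hb1.le.trans (min_le_left _ _)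
    have hb16 : β ≤ 1 / 16 := hb1.le.trans (min_le_right _ _)
    have hl1 := hpos β hb0 hb16
    have hl2 := hpos (β / 2) (by positivity) (by linarith)
    have h5 : (c - d) / Real.log (Real.log (1 / (β / 2))) ^ m ≤ FFk pr m β := by
      refine le_csInf ⟨ldk (hitk pr m Set.univ), Set.univ, by rw [relq_un]; linarith, rfl⟩ ?_
      rintro x ⟨A, hA, rfl⟩
      refine lower h3 hb0 (by linarith) (by positivity) ?_ hA
      intro w B hB hBc
      rw [div_le_iff₀ (by positivity), mul_comm]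
      exact h1 (β / 2) (by positivity) (by linarith) w B hB hBc
    calc a < (c - d) * (Real.log (Real.log (1 / β)) / Real.log (Real.log (1 / (β / 2)))) ^ m := hr
      _ = Real.log (Real.log (1 / β)) ^ m * ((c - d) / Real.log (Real.log (1 / (β / 2))) ^ m) := by
          rw [div_pow]
          ring
      _ ≤ _ := mul_le_mul_of_nonneg_left h5 (by positivity)
  · -- upper bound
    intro a ha
    obtain ⟨β0, hβ0, h2⟩ := h2 ((a - c) / 2) (by linarith)
    have hβ3 : 0 < min β0 (1 / 16) := by positivity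
    filter_upwards [Ioo_mem_nhdsGT hβ3] with β hβ
    obtain ⟨hb0, hb1⟩ := hβ
    have hb2 : β ≤ β0 := hb1.le.trans (min_le_left _ _)
    have hb16 : β ≤ 1 / 16 := hb1.le.trans (min_le_right _ _)
    have hl1 := hpos β hb0 hb16
    obtain ⟨w, B, hB, hBc, h5⟩ := h2 β hb0 hb2
    obtain ⟨A, hA1, -, hA2⟩ := h4 w B hB
    have h6 : FFk pr m β ≤ ldk (hitk pr m A) := by
      refine csInf_le (FFk_bdd pr m β) ⟨A, ?_, rfl⟩
      refine le_trans ?_ hA1
      rw [le_div_iff₀ (AA_pos pr w)]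
      exact hBc
    calc Real.log (Real.log (1 / β)) ^ m * FFk pr m β
        ≤ Real.log (Real.log (1 / β)) ^ m * (((sumk m w B).card : ℝ) / (Wp w : ℝ) ^ m) :=
          mul_le_mul_of_nonneg_left (h6.trans hA2) (by positivity)
      _ ≤ c + (a - c) / 2 := h5
      _ < a := by linarith

end Pool.Agent.TH293.J3813
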