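import Mathlib
import Pool.Agent.TH109.M.Defs

set_option autoImplicit false
open scoped Classical
namespace Pool.Agent.TH293.J1563
open Pool.Agent.Helper943.LM (UA wpow)
open Pool.Agent.TH109.M
variable {G : Type} [Group G]

theorem alt_congr {ι M : Type} [AddCommGroup M] (L : List ι) :
    ∀ (F F' : ι → List ι → M), (∀ j ∈ L, ∀ L', F j L' = F' j L') → alt F L = alt F' L := by
  induction L with
  | nil => intro F F' _; rfl
  | cons b bs ih =>
    intro F F' h
    simp only [alt]
    rw [h b (by simp), ih (fun a l => F a (b :: l)) (fun a l => F' a (b :: l))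
      (fun j hj L' => h j (by simp [hj]) _)]

theorem alt_sub {ι M : Type} [AddCommGroup M] (L : List ι) :
    ∀ (F F' : ι → List ι → M), alt (fun j l => F j l - F' j l) L = alt F L - alt F' L := by
  induction L with
  | nil => intro F F'; simp [alt]
  | cons b bs ih =>
    intro F F'
    simp only [alt]
    rw [ih (fun a l => F a (b :: l)) (fun a l => F' a (b :: l))]
    abel

theorem dl_cons {K : Type} [AddCommGroup K] (ψ : List G → K) (a : G) (l : List G) :
    dl ψ (a :: l) = ψ l - dl (fun x => ψ (a :: x)) l := rfl

theorem dl_congr {K : Type} [AddCommGroup K] (l : List G) :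
    ∀ (ψ ψ' : List G → K), (∀ l' : List G, l'.length + 1 = l.length → ψ l' = ψ' l') →
      dl ψ l = dl ψ' l := by
  induction l with
  | nil => intro ψ ψ' _; rfl
  | cons a l ih =>
    intro ψ ψ' h
    rw [dl_cons, dl_cons, h l (by simp), ih (fun x => ψ (a :: x)) (fun x => ψ' (a :: x))
      (fun l' hl' => h _ (by simp [hl']))]

theorem dl_mul {K : Type} [CommRing K] (k : K) (l : List G) :
    ∀ (ψ : List G → K), dl (fun x => k * ψ x) l = k * dl ψ l := by
  induction l with
  | nil => intro ψ; simp [dl, alt]
  | cons a l ih =>
    intro ψ
    rw [dl_cons, dl_cons, ih (fun x => ψ (a :: x))]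
    ring

theorem dl_cup0 {K : Type} [CommRing K] (u : G → K) (b : List G → K) (l : List G)
    (hl : 2 ≤ l.length) : dl (cup0 u b) l = cup1 u b l + cup0 u (dl b) l := by
  match l, hl with
  | g :: h :: l', _ =>
    rw [dl_cons]
    have h1 : (fun x => cup0 u b (g :: x)) = fun x => u g * (fun y => b (g :: y)) x := by
      funext x; rfl
    rw [h1, dl_mul]
    simp only [cup0, cup1]
    rw [dl_cons b g (h :: l')]
    ring

theorem dl_cup1 {K : Type} [CommRing K] (f : G → K) (b : List G → K) (l : List G)
    (hl : 3 ≤ l.length) : dl (cup1 f b) l = - cup1 f (dl b) l := by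
  match l, hl with
  | g :: h :: k :: l', _ =>
    rw [dl_cons]
    have h1 : dl (fun x => cup1 f b (g :: x)) (h :: k :: l') =
        dl (cup0 (fun y => f y - f g) b) (h :: k :: l') := by
      apply dl_congr
      intro l'' hl''
      match l'', hl'' with
      | x :: l3, _ => rfl
    rw [h1, dl_cup0 _ _ _ (by simp)]
    simp only [cup0, cup1]
    ring

theorem elim_eq {ι K : Type} [CommRing K] (f : ι → G → K) (c : ι → G) (cs : List ι)
    (hnd : cs.Nodup) (Z : List ι → (List G → K) → K) (Inv : Set G) (m : ℕ) (hm : 0 < m)
    (vol : List G → K)
    (hadd : ∀ L β β', Z L (fun l => β l + β' l) = Z L β + Z L β')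
    (hloc : ∀ L : List ι, L.Nodup → (∀ i ∈ L, i ∈ cs) → ∀ β β' : List G → K,
      (∀ l : List G, l.length = L.length + m + 1 →
        (∀ v ∈ l, ∀ j ∈ cs, j ∉ L → f j (c j * v) = 0) → β l = β' l) → Z L β = Z L β')
    (hcoh : ∀ L : List ι, L.Nodup → (∀ i ∈ L, i ∈ cs) → ∀ β : List G → K,
      (∀ b ∈ Inv, ∀ l, β (l.map (b * ·)) = β l) →
      Z L (dl β) = alt (fun i L' => Z L' (fun l => tc (c i) β l - β l)) L)
    (hfinv : ∀ i ∈ cs, ∀ b ∈ Inv, ∀ g, f i (b * g) = f i g)
    (hfc : cs.Pairwise (fun i j => ∀ g, f i (c j * g) = f i g))
    (hvol : ∀ l : List G, l.length = m + 2 → dl vol l = 0)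
    (hvinv : ∀ b ∈ Inv, ∀ l, vol (l.map (b * ·)) = vol l)
    (hvc : ∀ i ∈ cs, ∀ l, vol (l.map (c i * ·)) = vol l) :
    elim f cs Z vol = Z [] vol := by
  induction cs generalizing Z with
  | nil => rfl
  | cons i cs ih =>
    have hi : i ∉ cs := (List.nodup_cons.1 hnd).1
    have hnd' : cs.Nodup := (List.nodup_cons.1 hnd).2
    have hfc1 : ∀ j ∈ cs, ∀ g, f i (c j * g) = f i g := (List.pairwise_cons.1 hfc).1
    have hfc2 := (List.pairwise_cons.1 hfc).2
    have hzero : ∀ L, Z L (fun _ => 0) = 0 := by
      intro L
      have := hadd L (fun _ => 0) (fun _ => 0)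
      simp only [add_zero] at this
      exact left_eq_add.1 this
    have hneg : ∀ L β, Z L (fun l => - β l) = - Z L β := by
      intro L β
      have := hadd L β (fun l => - β l)
      simp only [add_neg_cancel] at this
      rw [hzero] at this
      exact (neg_eq_of_add_eq_zero_right this.symm).symm
    have hsub : ∀ L β β', Z L (fun l => β l - β' l) = Z L β - Z L β' := by
      intro L β β'
      have := hadd L β (fun l => - β' l)
      rw [hneg] at this
      simp only [sub_eq_add_neg]
      exact this
    -- invariance of cup products
    have hinv0 : ∀ u : G → K, (∀ b ∈ Inv, ∀ g, u (b * g) = u g) → ∀ β : List G → K,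
        (∀ b ∈ Inv, ∀ l, β (l.map (b * ·)) = β l) → ∀ b ∈ Inv, ∀ l,
          cup0 u β (l.map (b * ·)) = cup0 u β l := by
      intro u hu β hβ b hb l
      match l with
      | [] => rfl
      | g :: l' =>
        have := hβ b hb (g :: l')
        simp only [List.map_cons] at this
        simp only [cup0, List.map_cons]
        rw [hu b hb, this]
    have hinv1 : ∀ u : G → K, (∀ b ∈ Inv, ∀ g, u (b * g) = u g) → ∀ β : List G → K,
        (∀ b ∈ Inv, ∀ l, β (l.map (b * ·)) = β l) → ∀ b ∈ Inv, ∀ l,
          cup1 u β (l.map (b * ·)) = cup1 u β l := by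
      intro u hu β hβ b hb l
      match l with
      | [] => rfl
      | [g] => rfl
      | g :: h :: l' =>
        have := hβ b hb (h :: l')
        simp only [List.map_cons] at this
        simp only [cup1, List.map_cons]
        rw [hu b hb, hu b hb, this]
    have hfi : ∀ b ∈ Inv, ∀ g, f i (b * g) = f i g := hfinv i (by simp)
    have hf1 : ∀ b ∈ Inv, ∀ g, (fun g => 1 - f i g) (b * g) = (fun g => 1 - f i g) g := by
      intro b hb g
      simp only [hfi b hb g]
    have key : elim f cs (estep f i Z) vol = estep f i Z [] vol := by
      apply ih hnd' (estep f i Z)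
      · -- hadd
        intro L β β'
        simp only [estep]
        have e1 : cup0 (fun g => 1 - f i g) (fun l => β l + β' l) =
            fun l => cup0 (fun g => 1 - f i g) β l + cup0 (fun g => 1 - f i g) β' l := by
          funext l
          match l with
          | [] => simp [cup0]
          | g :: l' => simp only [cup0]; ring
        have e2 : cup1 (f i) (fun l => β l + β' l) =
            fun l => cup1 (f i) β l + cup1 (f i) β' l := by
          funext l
          match l with
          | [] => simp [cup1]
          | [g] => simp [cup1]
          | g :: h :: l' => simp only [cup1]; ring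
        rw [e1, e2, hadd, hadd]
        ring
      · -- hloc
        intro L hL hLs β β' hβ
        have hiL : i ∉ L := fun h => hi (hLs i h)
        simp only [estep]
        congr 1
        · apply hloc L hL (fun j hj => List.mem_cons_of_mem _ (hLs j hj))
          intro l hl hv
          match l, hl, hv with
          | g :: l', hl, hv =>
            simp only [cup0]
            rw [hβ (g :: l') hl (fun v hv' j hj hjL => hv v hv' j (List.mem_cons_of_mem _ hj) hjL)]
        · apply hloc (i :: L) (List.nodup_cons.2 ⟨hiL, hL⟩)
          · intro j hj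
            rcases List.mem_cons.1 hj with rfl | hj
            · simp
            · exact List.mem_cons_of_mem _ (hLs j hj)
          · intro l hl hv
            match l, hl, hv with
            | [g], hl, hv => simp [cup1]
            | g :: h :: l', hl, hv =>
              simp only [cup1]
              rw [hβ (h :: l') (by simp only [List.length_cons] at hl ⊢; omega)]
              intro v hv' j hj hjL
              refine hv v (List.mem_cons_of_mem _ hv') j (List.mem_cons_of_mem _ hj) ?_
              intro hj'
              rcases List.mem_cons.1 hj' with rfl | hj'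
              · exact hi hj
              · exact hjL hj'
      · -- hcoh
        intro L hL hLs β hβ
        have hiL : i ∉ L := fun h => hi (hLs i h)
        have hLs' : ∀ j ∈ L, j ∈ i :: cs := fun j hj => List.mem_cons_of_mem _ (hLs j hj)
        have hiLn : (i :: L).Nodup := List.nodup_cons.2 ⟨hiL, hL⟩
        have hiLs : ∀ j ∈ i :: L, j ∈ i :: cs := by
          intro j hj
          rcases List.mem_cons.1 hj with rfl | hj
          · simp
          · exact List.mem_cons_of_mem _ (hLs j hj)
        simp only [estep]
        -- first term
        have t1 : Z L (cup0 (fun g => 1 - f i g) (dl β)) =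
            Z L (dl (cup0 (fun g => 1 - f i g) β)) + Z L (cup1 (f i) β) := by
          rw [← hadd]
          apply hloc L hL hLs'
          intro l hl _
          rw [dl_cup0 _ _ _ (by omega)]
          match l, hl with
          | [g], hl => simp [cup1]
          | g :: h :: l', hl => simp only [cup1]; ring
        have t2 : Z (i :: L) (cup1 (f i) (dl β)) = - Z (i :: L) (dl (cup1 (f i) β)) := by
          rw [← hneg]
          apply hloc (i :: L) hiLn hiLs
          intro l hl _
          rw [dl_cup1 _ _ _ (by simp only [List.length_cons] at hl; omega)]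
          ring
        have t3 := hcoh L hL hLs' (cup0 (fun g => 1 - f i g) β) (hinv0 _ hf1 β hβ)
        have t4 := hcoh (i :: L) hiLn hiLs (cup1 (f i) β) (hinv1 _ hfi β hβ)
        simp only [alt] at t4
        have t5 : Z L (fun l => tc (c i) (cup1 (f i) β) l - cup1 (f i) β l) =
            - Z L (cup1 (f i) β) := by
          rw [← hneg]
          apply hloc L hL hLs'
          intro l hl hv
          have h0 : tc (c i) (cup1 (f i) β) l = 0 := by
            match l, hl, hv with
            | [g], hl, hv => simp [cup1, tc]
            | g :: h :: l', hl, hv =>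
              simp only [tc, List.map_cons, cup1]
              rw [hv g (by simp) i (by simp) hiL, hv h (by simp) i (by simp) hiL]
              ring
          rw [h0]; ring
        rw [t1, t2, t3, t4, t5]
        have t6 : alt (fun j L' => estep f i Z L' (fun l => tc (c j) β l - β l)) L =
            alt (fun j L' => Z L' (fun l => tc (c j) (cup0 (fun g => 1 - f i g) β) l -
              cup0 (fun g => 1 - f i g) β l) -
              Z (i :: L') (fun l => tc (c j) (cup1 (f i) β) l - cup1 (f i) β l)) L := by
          apply alt_congr
          intro j hj L'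
          simp only [estep]
          congr 2
          · funext l
            match l with
            | [] => simp [cup0, tc]
            | g :: l' =>
              simp only [cup0, tc, List.map_cons]
              rw [hfc1 j (hLs j hj) g]
              ring
          · funext l
            match l with
            | [] => simp [cup1, tc]
            | [g] => simp [cup1, tc]
            | g :: h :: l' =>
              simp only [cup1, tc, List.map_cons]
              rw [hfc1 j (hLs j hj) g, hfc1 j (hLs j hj) h]
              ring
        simp only [estep] at t6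
        rw [t6, alt_sub]
        ring
      · exact fun j hj => hfinv j (List.mem_cons_of_mem _ hj)
      · exact hfc2
      · exact fun j hj => hvc j (List.mem_cons_of_mem _ hj)
    show elim f cs (estep f i Z) vol = Z [] vol
    rw [key]
    simp only [estep]
    have hI : ∀ j ∈ [i], j ∈ i :: cs := by
      intro j hj
      rcases List.mem_cons.1 hj with rfl | hj
      · simp
      · simp at hj
    have s1 : Z [i] (cup1 (f i) vol) = Z [i] (dl (cup0 (f i) vol)) := by
      apply hloc [i] (by simp) hI
      intro l hl _
      simp only [List.length_cons, List.length_nil] at hl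
      rw [dl_cup0 _ _ _ (by omega)]
      match l, hl with
      | g :: l', hl =>
        simp only [cup0]
        rw [hvol (g :: l') (by omega)]
        ring
    have s2 := hcoh [i] (by simp) hI (cup0 (f i) vol) (hinv0 _ hfi vol hvinv)
    simp only [alt, sub_zero] at s2
    have s3 : Z [] (fun l => tc (c i) (cup0 (f i) vol) l - cup0 (f i) vol l) =
        - Z [] (cup0 (f i) vol) := by
      rw [← hneg]
      apply hloc [] (by simp) (by simp)
      intro l hl hv
      have h0 : tc (c i) (cup0 (f i) vol) l = 0 := by
        match l, hl, hv with
        | g :: l', hl, hv =>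
          simp only [tc, List.map_cons, cup0]
          rw [hv g (by simp) i (by simp) (by simp)]
          ring
      rw [h0]; ring
    have s4 : Z [] vol = Z [] (cup0 (fun g => 1 - f i g) vol) + Z [] (cup0 (f i) vol) := by
      rw [← hadd]
      apply hloc [] (by simp) (by simp)
      intro l hl _
      match l, hl with
      | g :: l', hl => simp only [cup0]; ring
    rw [s1, s2, s3, s4]
    ring

theorem elim_terms {ι K : Type} [CommRing K] (f : ι → G → K) (cs : List ι)
    (Z : List ι → (List G → K) → K) (β : List G → K)
    (hadd : ∀ L β β', Z L (fun l => β l + β' l) = Z L β + Z L β') :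
    elim f cs Z β = ((terms f β cs).map (fun p => Z p.1 p.2)).sum := by
  induction cs generalizing Z with
  | nil => simp [elim, terms]
  | cons i cs ih =>
    have hzero : ∀ L, Z L (fun _ => 0) = 0 := by
      intro L
      have := hadd L (fun _ => 0) (fun _ => 0)
      simp only [add_zero] at this
      exact left_eq_add.1 this
    have hneg : ∀ L β, Z L (fun l => - β l) = - Z L β := by
      intro L β
      have := hadd L β (fun l => - β l)
      simp only [add_neg_cancel] at this
      rw [hzero] at this
      exact (neg_eq_of_add_eq_zero_right this.symm).symm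
    show elim f cs (estep f i Z) β = _
    rw [ih (estep f i Z)]
    · simp only [terms, List.map_append, List.sum_append, List.map_map]
      induction terms f β cs with
      | nil => simp
      | cons p ps ih2 =>
        simp only [List.map_cons, List.sum_cons, Function.comp_apply, estep] at ih2 ⊢
        rw [hneg, ih2]
        ring
    · intro L β β'
      simp only [estep]
      have e1 : cup0 (fun g => 1 - f i g) (fun l => β l + β' l) =
          fun l => cup0 (fun g => 1 - f i g) β l + cup0 (fun g => 1 - f i g) β' l := by
        funext l
        match l with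
        | [] => simp [cup0]
        | g :: l' => simp only [cup0]; ring
      have e2 : cup1 (f i) (fun l => β l + β' l) =
          fun l => cup1 (f i) β l + cup1 (f i) β' l := by
        funext l
        match l with
        | [] => simp [cup1]
        | [g] => simp [cup1]
        | g :: h :: l' => simp only [cup1]; ring
      rw [e1, e2, hadd, hadd]
      ring

theorem terms_props {ι : Type} (f : ι → G → ℂ) (cs : List ι) (hnd : cs.Nodup)
    (hf : ∀ i g, f i g = 0 ∨ f i g = 1) (vol : List G → ℂ) :
    (terms f vol cs).length = 2 ^ cs.length ∧
    ∀ p ∈ terms f vol cs, List.Sublist p.1 cs ∧ ∀ l : List G, p.1.length < l.length →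
      ‖p.2 l‖ ≤ ‖vol (l.drop p.1.length)‖ ∧
      (p.2 l ≠ 0 → ∀ j ∈ cs, (j ∉ p.1 → ∃ v ∈ l, f j v ≠ 1) ∧
        (j ∈ p.1 → ∃ v ∈ l, ∃ v' ∈ l, f j v ≠ f j v')) := by
  induction cs with
  | nil =>
    refine ⟨by simp [terms], ?_⟩
    intro p hp
    simp only [terms, List.mem_singleton] at hp
    subst hp
    refine ⟨List.Sublist.refl _, fun l hl => ⟨by simp, fun _ j hj => by simp at hj⟩⟩
  | cons i cs ih =>
    have hi : i ∉ cs := (List.nodup_cons.1 hnd).1
    obtain ⟨h1, h2⟩ := ih (List.nodup_cons.1 hnd).2
    refine ⟨by simp only [terms, List.length_append, List.length_map, h1, List.length_cons]; ring, ?_⟩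
    intro p hp
    simp only [terms, List.mem_append, List.mem_map] at hp
    rcases hp with ⟨q, hq, rfl⟩ | ⟨q, hq, rfl⟩
    · obtain ⟨q1, q2⟩ := h2 q hq
      refine ⟨List.Sublist.cons _ q1, ?_⟩
      intro l hl
      simp only at hl
      match l, hl with
      | g :: l', hl =>
        obtain ⟨q3, q4⟩ := q2 (g :: l') hl
        refine ⟨?_, ?_⟩
        · simp only [cup0]
          rw [norm_mul]
          have : ‖1 - f i g‖ ≤ 1 := by
            rcases hf i g with h | h <;> rw [h] <;> simp
          calc ‖1 - f i g‖ * ‖q.2 (g :: l')‖ ≤ 1 * ‖q.2 (g :: l')‖ :=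
                mul_le_mul_of_nonneg_right this (norm_nonneg _)
            _ = ‖q.2 (g :: l')‖ := one_mul _
            _ ≤ _ := q3
        · intro hne j hj
          simp only [cup0] at hne
          have hne1 : 1 - f i g ≠ 0 := left_ne_zero_of_mul hne
          have hne2 : q.2 (g :: l') ≠ 0 := right_ne_zero_of_mul hne
          rcases List.mem_cons.1 hj with rfl | hj
          · refine ⟨fun _ => ⟨g, by simp, fun h => hne1 (by rw [h]; ring)⟩, fun h => ?_⟩
            exact absurd (q1.subset h) hi
          · exact q4 hne2 j hj
    · obtain ⟨q1, q2⟩ := h2 q hq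
      refine ⟨List.Sublist.cons_cons _ q1, ?_⟩
      intro l hl
      simp only [List.length_cons] at hl
      match l, hl with
      | [g], hl => simp at hl
      | g :: h :: l', hl =>
        obtain ⟨q3, q4⟩ := q2 (h :: l') (by simp only [List.length_cons] at hl ⊢; omega)
        refine ⟨?_, ?_⟩
        · simp only [cup1, List.length_cons, List.drop_succ_cons]
          rw [norm_neg, norm_mul]
          have : ‖f i h - f i g‖ ≤ 1 := by
            rcases hf i g with h3 | h3 <;> rcases hf i h with h4 | h4 <;> rw [h3, h4] <;> simp
          calc ‖f i h - f i g‖ * ‖q.2 (h :: l')‖ ≤ 1 * ‖q.2 (h :: l')‖ :=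
                mul_le_mul_of_nonneg_right this (norm_nonneg _)
            _ = ‖q.2 (h :: l')‖ := one_mul _
            _ ≤ _ := q3
        · intro hne j hj
          simp only [cup1, ne_eq, neg_eq_zero] at hne
          have hne1 : f i h - f i g ≠ 0 := left_ne_zero_of_mul hne
          have hne2 : q.2 (h :: l') ≠ 0 := right_ne_zero_of_mul hne
          rcases List.mem_cons.1 hj with rfl | hj
          · refine ⟨fun h5 => absurd (by simp) h5, fun _ => ⟨h, by simp, g, by simp,
              fun h5 => hne1 (by rw [h5]; ring)⟩⟩
          · obtain ⟨q5, q6⟩ := q4 hne2 j hj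
            have hji : j ≠ i := fun h5 => hi (h5 ▸ hj)
            refine ⟨fun h5 => ?_, fun h5 => ?_⟩
            · obtain ⟨v, hv, hv2⟩ := q5 (fun h6 => h5 (List.mem_cons_of_mem _ h6))
              exact ⟨v, List.mem_cons_of_mem _ hv, hv2⟩
            · have h6 : j ∈ q.1 := by
                rcases List.mem_cons.1 h5 with h7 | h7
                · exact absurd h7 hji
                · exact h7
              obtain ⟨v, hv, v', hv', hv2⟩ := q6 h6
              exact ⟨v, List.mem_cons_of_mem _ hv, v', List.mem_cons_of_mem _ hv', hv2⟩

end Pool.Agent.TH293.J1563
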