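import Pool.Agent.TH293.RatioClique

set_option autoImplicit false
open MeasureTheory

namespace Pool.Agent.TH293.RatioRec

/-- the clique with large quotients, for given `b < d` -/
theorem ratio_clique (a : ℕ) (b d : ℤ) (ha : 0 < a) (hbd : b < d)
    (hgcd : ∀ k : ℤ, k ∣ (a : ℤ) → k ∣ b → k ∣ d → IsUnit k) (hdvd : (a : ℤ) ∣ b * d) (m : ℕ) :
    ∃ S : Finset ℤ, S.card = m ∧ (∀ x ∈ S, 0 < x) ∧ ∀ x ∈ S, ∀ y ∈ S, x < y →
      ∃ n : ℕ, 0 < n ∧ 0 < (a : ℤ) * n + b ∧ 0 < (a : ℤ) * n + d ∧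
        x * (a * n + d) = y * (a * n + b) := by
  obtain ⟨a1, ha1⟩ : ∃ a1 : ℕ, a1 = Int.gcd a b := ⟨_, rfl⟩
  obtain ⟨a2, ha2⟩ : ∃ a2 : ℕ, a2 = Int.gcd a d := ⟨_, rfl⟩
  have haZ : (0 : ℤ) < a := by exact_mod_cast ha
  have h1a : (a1 : ℤ) ∣ a := by rw [ha1]; exact Int.gcd_dvd_left ..
  have h1b : (a1 : ℤ) ∣ b := by rw [ha1]; exact Int.gcd_dvd_right ..
  have h2a : (a2 : ℤ) ∣ a := by rw [ha2]; exact Int.gcd_dvd_left ..
  have h2d : (a2 : ℤ) ∣ d := by rw [ha2]; exact Int.gcd_dvd_right ..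
  have h1 : 0 < a1 := Nat.pos_of_ne_zero fun h => by
    rw [h] at h1a
    simp at h1a
    omega
  have h2 : 0 < a2 := Nat.pos_of_ne_zero fun h => by
    rw [h] at h2a
    simp at h2a
    omega
  have hc : Nat.Coprime a1 a2 := by
    have h3 : ((Nat.gcd a1 a2 : ℕ) : ℤ) ∣ a1 := Int.natCast_dvd_natCast.2 (Nat.gcd_dvd_left _ _)
    have h4 : ((Nat.gcd a1 a2 : ℕ) : ℤ) ∣ a2 := Int.natCast_dvd_natCast.2 (Nat.gcd_dvd_right _ _)
    have h5 := hgcd _ (h3.trans h1a) (h3.trans h1b) (h4.trans h2d)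
    have h6 := Int.isUnit_iff_natAbs_eq.1 h5
    simpa using h6
  have hprod : (a : ℤ) ∣ (a1 : ℤ) * a2 := by
    have h3 : a ∣ Int.gcd a b * Int.gcd a d := by
      have h4 : Nat.gcd a (b.natAbs * d.natAbs) ∣ Nat.gcd a b.natAbs * Nat.gcd a d.natAbs :=
        Nat.gcd_mul_right_dvd_mul_gcd _ _ _
      have h5 : a ∣ b.natAbs * d.natAbs := by
        have h6 := Int.natAbs_dvd_natAbs.2 hdvd
        rwa [Int.natAbs_mul, Int.natAbs_natCast] at h6
      have h6 : a ∣ Nat.gcd a (b.natAbs * d.natAbs) := Nat.dvd_gcd dvd_rfl h5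
      exact h6.trans h4
    have h4 := Int.natCast_dvd_natCast.2 h3
    rw [Nat.cast_mul, ← ha1, ← ha2] at h4
    exact h4
  -- enlarge `a1`
  let k : ℕ := a2 * (b.natAbs + 1) + 1
  have hk0 : 0 < k := Nat.succ_pos _
  have hkc : Nat.Coprime k a2 := by
    have : Nat.Coprime (a2 * (b.natAbs + 1) + 1) a2 := by
      rw [Nat.coprime_comm]
      simp
    exact this
  have hkb : b < k := by
    have h3 : b ≤ b.natAbs := Int.le_natAbs
    have h4 : (b.natAbs : ℤ) < k := by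
      have : b.natAbs < k := by
        have h5 : b.natAbs + 1 ≤ a2 * (b.natAbs + 1) := Nat.le_mul_of_pos_left _ h2
        simp only [k]
        omega
      exact_mod_cast this
    linarith
  obtain ⟨S, hcard, hpos, hS⟩ := RatioClique.clique (a1 * k) a2 (mul_pos h1 hk0) h2
    (Nat.Coprime.mul_left hc hkc) m
  refine ⟨S, hcard, hpos, fun x hx y hy hxy => ?_⟩
  obtain ⟨⟨c, hc1⟩, ⟨f, hf1⟩⟩ := hS x hx y hy hxy
  have hxpos := hpos x hx
  have hyx : 0 < y - x := by linarith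
  -- `t = a1 * k * c`
  obtain ⟨t, ht⟩ : ∃ t : ℤ, t = (a1 : ℤ) * k * c := ⟨_, rfl⟩
  have hxt : x = (y - x) * t := by
    rw [ht]
    push_cast at hc1
    linear_combination hc1
  have htpos : 0 < t := by
    by_contra hneg
    push Not at hneg
    nlinarith
  have hcpos : 1 ≤ c := by
    by_contra hneg
    push Not at hneg
    have hc0 : c ≤ 0 := by omega
    have : t ≤ 0 := by
      rw [ht]
      have : (0 : ℤ) ≤ (a1 : ℤ) * k := by positivity
      nlinarith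
    linarith
  have htk : (k : ℤ) ≤ t := by
    rw [ht]
    have h3 : (1 : ℤ) ≤ a1 := by exact_mod_cast h1
    have h4 : (0 : ℤ) < k := by exact_mod_cast hk0
    nlinarith [mul_le_mul h3 hcpos (by norm_num) (by linarith : (0 : ℤ) ≤ a1)]
  have hyt : y = (y - x) * (t + 1) := by linarith
  have ht1 : (a2 : ℤ) ∣ t + 1 := by
    refine ⟨f, ?_⟩
    have h3 : (y - x) * (t + 1) = (y - x) * (a2 * f) := by
      rw [← hyt]
      linarith
    exact mul_left_cancel₀ hyx.ne' h3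
  have ha1t : (a1 : ℤ) ∣ t := by rw [ht, mul_assoc]; exact dvd_mul_right _ _
  have he : 0 < d - b := by linarith
  have hmod : (a : ℤ) ∣ (d - b) * t - b := by
    refine hprod.trans ?_
    have hcz : IsCoprime (a1 : ℤ) (a2 : ℤ) := Nat.isCoprime_iff_coprime.2 hc
    refine hcz.mul_dvd (dvd_sub (ha1t.mul_left _) h1b) ?_
    have h3 : (d - b) * t - b = (d - b) * (t + 1) - d := by ring
    rw [h3]
    exact dvd_sub (ht1.mul_left _) h2d
  obtain ⟨n, hn⟩ := hmod
  have hbig : 0 < (d - b) * t - b := by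
    have h3 : t ≤ (d - b) * t := by nlinarith
    linarith
  have hnpos : 0 < n := by
    rw [hn] at hbig
    by_contra hneg
    push Not at hneg
    nlinarith
  obtain ⟨n', rfl⟩ := Int.eq_ofNat_of_zero_le hnpos.le
  have e1 : (a : ℤ) * n' + b = (d - b) * t := by linarith
  have e2 : (a : ℤ) * n' + d = (d - b) * (t + 1) := by linarith
  refine ⟨n', by exact_mod_cast hnpos, ?_, ?_, ?_⟩
  · rw [e1]; positivity
  · rw [e2]; positivity
  · rw [e1, e2]
    calc x * ((d - b) * (t + 1)) = ((y - x) * t) * ((d - b) * (t + 1)) := by rw [← hxt]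
      _ = ((y - x) * (t + 1)) * ((d - b) * t) := by ring
      _ = y * ((d - b) * t) := by rw [← hyt]

/-- Pigeonhole: among many sets of the same positive measure two meet in positive measure. -/
theorem two_meet {X : Type} [MeasurableSpace X] (μ : Measure X) [IsProbabilityMeasure μ]
    (S : Finset ℤ) (B : ℤ → Set X) (hB : ∀ x ∈ S, MeasurableSet (B x)) (c : ENNReal)
    (hc : ∀ x ∈ S, μ (B x) = c) (hS : 1 < (S.card : ENNReal) * c) :
    ∃ x ∈ S, ∃ y ∈ S, x < y ∧ 0 < μ (B x ∩ B y) := by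
  by_contra hcon
  push Not at hcon
  have hdis : (S : Set ℤ).Pairwise (Function.onFun (AEDisjoint μ) B) := by
    intro x hx y hy hxy
    rcases lt_or_gt_of_ne hxy with h | h
    · exact le_antisymm (hcon x hx y hy h) zero_le
    · have := hcon y hy x hx h
      rw [Set.inter_comm] at this
      exact le_antisymm this zero_le
  have h1 : μ (⋃ x ∈ S, B x) = ∑ x ∈ S, μ (B x) :=
    measure_biUnion_finset₀ hdis fun x hx => (hB x hx).nullMeasurableSet
  rw [Finset.sum_congr rfl hc, Finset.sum_const, nsmul_eq_mul] at h1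
  have h2 : μ (⋃ x ∈ S, B x) ≤ 1 := prob_le_one
  rw [h1] at h2
  exact absurd hS (not_lt.2 h2)

theorem main (a : ℕ) (b d : ℤ) (ha : 0 < a)
    (hgcd : ∀ k : ℤ, k ∣ (a : ℤ) → k ∣ b → k ∣ d → IsUnit k)
    (hbd : b = d ∨ (a : ℤ) ∣ b * d) (X : Type) [MeasurableSpace X] (μ : Measure X)
    [IsProbabilityMeasure μ] (T : ℚ → X → X) (hT1 : T 1 = id)
    (hTmul : ∀ q r : ℚ, 0 < q → 0 < r → T (q * r) = T q ∘ T r)
    (hTmp : ∀ q : ℚ, 0 < q → MeasurePreserving (T q) μ μ) (A : Set X) (hA : MeasurableSet A)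
    (hA0 : 0 < μ A) :
    ∃ n : ℕ, 0 < n ∧ 0 < (a : ℤ) * n + b ∧ 0 < (a : ℤ) * n + d ∧
      0 < μ (A ∩ T (((a : ℚ) * n + b) / ((a : ℚ) * n + d)) ⁻¹' A) := by
  have haZ : (0 : ℤ) < a := by exact_mod_cast ha
  -- the number of points
  obtain ⟨m, hm⟩ : ∃ m : ℕ, 1 < (m : ENNReal) * μ A := by
    obtain ⟨m, hm⟩ := ENNReal.exists_nat_mul_gt hA0.ne' (ENNReal.one_ne_top)
    exact ⟨m, hm⟩
  -- from two points of a clique
  have key : ∀ x y : ℤ, 0 < x → 0 < y → 0 < μ (T x ⁻¹' A ∩ T y ⁻¹' A) → ∀ q : ℚ, 0 < q →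
      (x : ℚ) = q * y → 0 < μ (A ∩ T q ⁻¹' A) := by
    intro x y hx hy hxy q hq hqy
    have hy' : (0 : ℚ) < y := by exact_mod_cast hy
    have h1 : T x ⁻¹' A ∩ T y ⁻¹' A = T y ⁻¹' (A ∩ T q ⁻¹' A) := by
      rw [hqy, hTmul q y hq hy', Set.preimage_comp, Set.preimage_inter, Set.inter_comm]
    rw [h1, (hTmp y hy').measure_preimage
      (hA.inter ((hTmp q hq).measurable hA)).nullMeasurableSet] at hxy
    exact hxy
  have hcard : ∀ S : Finset ℤ, S.card = m → (∀ x ∈ S, 0 < x) →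
      ∃ x ∈ S, ∃ y ∈ S, x < y ∧ 0 < μ (T x ⁻¹' A ∩ T y ⁻¹' A) := by
    intro S hS hpos
    refine two_meet μ S (fun x => T x ⁻¹' A) ?_ (μ A) ?_ (by rw [hS]; exact hm)
    · intro x hx
      exact (hTmp x (by exact_mod_cast hpos x hx)).measurable hA
    · intro x hx
      exact (hTmp x (by exact_mod_cast hpos x hx)).measure_preimage hA.nullMeasurableSet
  rcases lt_trichotomy b d with h | h | h
  · have hdvd : (a : ℤ) ∣ b * d := by
      rcases hbd with h' | h'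
      · exact absurd h' h.ne
      · exact h'
    obtain ⟨S, hS, hpos, hSr⟩ := ratio_clique a b d ha h hgcd hdvd m
    obtain ⟨x, hx, y, hy, hxy, hμ⟩ := hcard S hS hpos
    obtain ⟨n, hn, h1, h2, h3⟩ := hSr x hx y hy hxy
    refine ⟨n, hn, h1, h2, ?_⟩
    have h1' : (0 : ℚ) < (a : ℚ) * n + b := by exact_mod_cast h1
    have h2' : (0 : ℚ) < (a : ℚ) * n + d := by exact_mod_cast h2
    have h3' : (x : ℚ) * ((a : ℚ) * n + d) = y * ((a : ℚ) * n + b) := by exact_mod_cast h3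
    refine key x y (hpos x hx) (hpos y hy) hμ _ (div_pos h1' h2') ?_
    field_simp
    linarith
  · -- trivial case
    obtain ⟨N, hN0, hN⟩ : ∃ N : ℕ, 0 < N ∧ 0 < (a : ℤ) * N + b := by
      refine ⟨b.natAbs + 1, Nat.succ_pos _, ?_⟩
      have h1 : -b ≤ b.natAbs := by
        have := Int.le_natAbs (a := -b)
        rwa [Int.natAbs_neg] at this
      have h2 : (0 : ℤ) ≤ (b.natAbs : ℤ) := by positivity
      rw [Nat.cast_add, Nat.cast_one]
      nlinarith
    refine ⟨N, hN0, hN, by rw [← h]; exact hN, ?_⟩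
    have hN' : (0 : ℚ) < (a : ℚ) * N + b := by exact_mod_cast hN
    rw [← h, div_self hN'.ne', hT1]
    simpa using hA0
  · have hdvd : (a : ℤ) ∣ d * b := by
      rcases hbd with h' | h'
      · exact absurd h' h.ne'
      · rwa [mul_comm]
    obtain ⟨S, hS, hpos, hSr⟩ := ratio_clique a d b ha h (fun k h1 h2 h3 => hgcd k h1 h3 h2) hdvd m
    obtain ⟨x, hx, y, hy, hxy, hμ⟩ := hcard S hS hpos
    obtain ⟨n, hn, h1, h2, h3⟩ := hSr x hx y hy hxy
    refine ⟨n, hn, h2, h1, ?_⟩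
    have h1' : (0 : ℚ) < (a : ℚ) * n + d := by exact_mod_cast h1
    have h2' : (0 : ℚ) < (a : ℚ) * n + b := by exact_mod_cast h2
    have h3' : (x : ℚ) * ((a : ℚ) * n + b) = y * ((a : ℚ) * n + d) := by exact_mod_cast h3
    rw [Set.inter_comm] at hμ
    refine key y x (hpos y hy) (hpos x hx) hμ _ (div_pos h2' h1') ?_
    field_simp
    linarith

end Pool.Agent.TH293.RatioRec
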