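import Pool.Agent.TH293.Sem.Main2

/-!
# Job 1781 (FL2-SEM): a generic element orthogonal to `[r, r]` is semisimple
-/

set_option autoImplicit false

universe u v

namespace Pool.Agent.TH293.Sem

open Module Pool.Agent.TH28.FL

variable {K : Type u} {L : Type v} [Field K] [LieRing L] [LieAlgebra K L]

theorem Zc.zero (s : L) : Zc s (0 : L) := ⟨lie_zero _, fun _ _ => zero_lie _⟩

theorem Zc.neg {s z : L} (h : Zc s z) : Zc s (-z) :=
  ⟨by rw [lie_neg, h.1, neg_zero], fun a ha => by rw [neg_lie, h.2 a ha, neg_zero]⟩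

theorem Zc.add {s z z' : L} (h : Zc s z) (h' : Zc s z') : Zc s (z + z') :=
  ⟨by rw [lie_add, h.1, h'.1, add_zero], fun a ha => by rw [add_lie, h.2 a ha, h'.2 a ha, add_zero]⟩

theorem Zc.self (s : L) : Zc s s := ⟨lie_self _, fun _ ha => ha⟩

namespace Ctx

variable {r : LieSubalgebra K L} {x s n w : L} (C : Ctx r x s n w) (g : Gr K w)
  [CharZero K] [FiniteDimensional K L] [LieAlgebra.IsKilling K L]

include C

omit [CharZero K] [FiniteDimensional K L] [LieAlgebra.IsKilling K L] in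
theorem Z_dl {y : L} (h1 : Zc s y) (h2 : y ∈ dl K s) : y = 0 :=
  C.levi2 y h2 fun _ _ ha hb => killing_Z_dl h1 (lie_mem_dl ha hb)

theorem n_mem_dl : n ∈ dl K s := by
  obtain ⟨z0, hz0, hn'⟩ := C.levi3 n C.hsn
  have h0 : z0 = 0 := by
    refine C.levi1 z0 hz0.1 fun a ha => ?_
    obtain ⟨z1, hz1, ha'⟩ := C.levi3 a ha
    have e3 : a = z1 + (a - z1) := by abel
    rw [e3, map_add, killing_Z_dl hz0 ha', add_zero]
    have h1 : killingForm K L n z1 = 0 := by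
      refine killing_nil ?_ C.hn
      rw [← lie_skew, hz1.2 n C.hsn, neg_zero]
    have h2 : killingForm K L (n - z0) z1 = 0 := by
      rw [killing_symm]; exact killing_Z_dl hz1 hn'
    rw [map_sub, LinearMap.sub_apply, h1, zero_sub, neg_eq_zero] at h2
    exact h2
  rwa [h0, sub_zero] at hn'

/-- the derived algebra of the leading part of `r` inside the derived algebra of the centraliser -/
def q (_ : Ctx r x s n w) : Submodule K L := (dr r ⊓ g.F 0).map (g.P 0) ⊓ dl K s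

/-- the orthogonal of `q` -/
def nu (_ : Ctx r x s n w) : Submodule K L where
  carrier := {v | v ∈ dl K s ∧ ∀ b ∈ (dr r ⊓ g.F 0).map (g.P 0) ⊓ dl K s, killingForm K L v b = 0}
  add_mem' := by
    intro a b ha hb
    refine ⟨Submodule.add_mem _ ha.1 hb.1, fun c hc => ?_⟩
    rw [map_add, LinearMap.add_apply, ha.2 c hc, hb.2 c hc, add_zero]
  zero_mem' := ⟨Submodule.zero_mem _, fun c _ => by rw [map_zero, LinearMap.zero_apply]⟩
  smul_mem' := by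
    intro t a ha
    refine ⟨Submodule.smul_mem _ _ ha.1, fun c hc => ?_⟩
    rw [map_smul, LinearMap.smul_apply, ha.2 c hc, smul_zero]

/-- the component of the leading part of `r` -/
def rh (_ : Ctx r x s n w) (a : L) : Prop :=
  a ∈ dl K s ∧ ∃ z, Zc s z ∧ z + a ∈ (r.toSubmodule ⊓ g.F 0).map (g.P 0)

theorem q_le_dl : C.q g ≤ dl K s := inf_le_right

theorem rh_q {a b : L} (ha : C.rh g a) (hb : b ∈ C.q g) : ⁅a, b⁆ ∈ C.q g := by
  obtain ⟨ha1, z, hz, ha2⟩ := ha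
  have e : ⁅a, b⁆ = ⁅z + a, b⁆ := by
    rw [add_lie, hz.2 b (dl_cent hb.2), zero_add]
  refine ⟨?_, lie_mem_dl (dl_cent ha1) (dl_cent hb.2)⟩
  rw [e]
  exact C.c2 g ha2 (r2l_le g hb.1)

theorem rh_nu {a v : L} (ha : C.rh g a) (hv : v ∈ C.nu g) : ⁅a, v⁆ ∈ C.nu g := by
  refine ⟨lie_mem_dl (dl_cent ha.1) (dl_cent hv.1), fun b hb => ?_⟩
  rw [← lie_skew, map_neg, LinearMap.neg_apply, killing_inv, hv.2 _ (C.rh_q g ha hb), neg_zero]

theorem q_rh {b : L} (hb : b ∈ C.q g) : C.rh g b :=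
  ⟨hb.2, 0, Zc.zero s, by rw [zero_add]; exact r2l_le g hb.1⟩

theorem rh_of {b : L} (hb : b ∈ (r.toSubmodule ⊓ g.F 0).map (g.P 0)) :
    ∃ z b', b = z + b' ∧ Zc s z ∧ C.rh g b' := by
  have hb0 : b ∈ dg K w 0 := by
    obtain ⟨ρ, _, rfl⟩ := hb
    exact g.mem 0 ρ
  obtain ⟨z, hz, hb'⟩ := C.levi3 b (C.mem_dg0.mp hb0)
  refine ⟨z, b - z, by abel, hz, hb', z, hz, ?_⟩
  rwa [show z + (b - z) = b by abel]

theorem nu_nil (hJ : ∀ x : L, ∃ s n : L, x = s + n ∧ ⁅s, n⁆ = 0 ∧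
      (LieAlgebra.ad K L s).IsSemisimple ∧ IsNilpotent (LieAlgebra.ad K L n) ∧
      ∀ (y : L) (c : K), ⁅x, y⁆ = c • y → ⁅s, y⁆ = c • y)
    {v : L} (hv : v ∈ C.nu g) : IsNilpotent (LieAlgebra.ad K L v) := by
  obtain ⟨v1, hv1, v2, hv2, e, h1, h2⟩ := orth_inf (killingForm K L) killing_symm (dg K w 0)
    (fun y hy h => C.levi1 y (C.mem_dg0.mp hy) fun a ha => h a (C.mem_dg0.mpr ha))
    (A := (dr r ⊓ g.F 0).map (g.P 0)) (C := dl K s) (v := v) (C.dl_le hv.1)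
    (fun b _ hb hb' => hv.2 b ⟨hb, hb'⟩)
  have hZ : Zc s v2 := by
    obtain ⟨z0, hz0, h3⟩ := C.levi3 v2 (C.mem_dg0.mp hv2)
    have h4 : v2 - z0 = 0 := by
      refine C.levi2 _ h3 fun a b ha hb => ?_
      have h5 := lie_mem_dl (K := K) ha hb
      rw [map_sub, LinearMap.sub_apply, h2 _ (C.dl_le h5) h5, killing_Z_dl hz0 h5, sub_zero]
    rw [sub_eq_zero.mp h4]
    exact hz0
  refine C.c6 g hJ hZ.neg hv.1 fun b hb => ?_
  have e2 : -v2 + v = v1 := by rw [e]; abel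
  rw [e2]
  refine h1 b ?_ hb
  obtain ⟨ρ, _, rfl⟩ := hb
  exact g.mem 0 ρ

theorem q_of (hJ : ∀ x : L, ∃ s n : L, x = s + n ∧ ⁅s, n⁆ = 0 ∧
      (LieAlgebra.ad K L s).IsSemisimple ∧ IsNilpotent (LieAlgebra.ad K L n) ∧
      ∀ (y : L) (c : K), ⁅x, y⁆ = c • y → ⁅s, y⁆ = c • y)
    {y : L} (hy : y ∈ dl K s) (h : ∀ v ∈ C.nu g, killingForm K L v y = 0) : y ∈ C.q g :=
  double_orth (killingForm K L) killing_symm (dl K s)
    (fun y hy h => C.levi2 y hy fun a b ha hb => h _ (lie_mem_dl ha hb)) (C.q_le_dl g) hy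
    (fun v hv hvq => h v ⟨hv, fun b hb => hvq b hb⟩)

theorem nu_le_q (hJ : ∀ x : L, ∃ s n : L, x = s + n ∧ ⁅s, n⁆ = 0 ∧
      (LieAlgebra.ad K L s).IsSemisimple ∧ IsNilpotent (LieAlgebra.ad K L n) ∧
      ∀ (y : L) (c : K), ⁅x, y⁆ = c • y → ⁅s, y⁆ = c • y) : C.nu g ≤ C.q g := by
  intro y hy
  exact C.q_of g hJ hy.1 fun v hv => killing_polar (C.nu g) (fun a ha => C.nu_nil g hJ ha) hv hy

theorem rh_le_q (hJ : ∀ x : L, ∃ s n : L, x = s + n ∧ ⁅s, n⁆ = 0 ∧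
      (LieAlgebra.ad K L s).IsSemisimple ∧ IsNilpotent (LieAlgebra.ad K L n) ∧
      ∀ (y : L) (c : K), ⁅x, y⁆ = c • y → ⁅s, y⁆ = c • y) {a : L} (ha : C.rh g a) :
    a ∈ C.q g := by
  refine C.q_of g hJ ha.1 fun v hv => ?_
  set N : LieSubalgebra K L :=
    { C.nu g with
      lie_mem' := by
        intro v1 v2 h1 h2
        exact C.rh_nu g (C.q_rh g (C.nu_le_q g hJ h1)) h2 } with hN
  exact killing_engel N (fun b hb => C.nu_nil g hJ hb) (fun b hb => C.rh_nu g ha hb) hv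

end Ctx

theorem sem (hG : S_GRD.{u, v}) (hL : S_LEVI.{u, v}) (hJ : S_JORD.{u, v}) (hM : S_JM.{u, v})
    (hO : S_OBS.{u, v}) : S_SEM.{u, v} := by
  intro K _ _ _ L _ _ _ _ r x s n hx hsn hss hn hev H1 H2 H3 H4
  obtain ⟨w, hwtop, hw⟩ := hG K L s hss
  obtain ⟨g⟩ := exists_gr hwtop
  obtain ⟨l1, l2, l3⟩ := hL K L s hss
  have C : Ctx r x s n w :=
    { hx := hx, hsn := hsn, hn := hn, hev := hev, H1 := H1, H2 := H2, H3 := H3, H4 := H4,
      hw := hw, levi1 := l1, levi2 := l2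
      levi3 := fun y hy => by
        obtain ⟨z, hz1, hz2, hz3⟩ := l3 y hy
        exact ⟨z, ⟨hz1, hz2⟩, hz3⟩ }
  have hJ' := hJ K L
  by_contra hn0
  have hndl : n ∈ dl K s := C.n_mem_dl
  have hxn : ⁅x, n⁆ = 0 := by rw [hx, add_lie, hsn, lie_self, add_zero]
  have hnν : n ∈ C.nu g := by
    refine ⟨hndl, fun b hb => ?_⟩
    have h1 := C.c1 g hb.1
    have h2 : killingForm K L s b = 0 := killing_Z_dl (Zc.self s) hb.2
    rw [hx, map_add, LinearMap.add_apply, h2, zero_add] at h1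
    exact h1
  -- Jacobson-Morozov
  set P : LieSubalgebra K L :=
    { dl K s with
      lie_mem' := by
        intro a b ha hb
        exact lie_mem_dl (dl_cent ha) (dl_cent hb) } with hP
  obtain ⟨h, hhP, f, hfP, hsl⟩ := hM K L P
    (fun y hy hy2 => C.levi2 y hy fun a b ha hb => hy2 _ (lie_mem_dl ha hb)) n hndl hn0 hn
  have hhdl : h ∈ dl K s := hhP
  have hfdl : f ∈ dl K s := hfP
  have hhn : ⁅h, n⁆ = 2 • n := hsl.lie_h_e_nsmul
  have hhf : ⁅h, f⁆ = -(2 • f) := hsl.lie_h_f_nsmul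
  have hnf : ⁅n, f⁆ = h := hsl.lie_e_f
  have hhs : ⁅h, s⁆ = 0 := by rw [← lie_skew, dl_cent hhdl, neg_zero]
  have hhx : ⁅h, x⁆ = 2 • n := by rw [hx, lie_add, hhs, hhn, zero_add]
  -- h lies in q
  have hhq : h ∈ C.q g := by
    obtain ⟨ρ, hρ, c, hc, e⟩ := C.c4 g (a := h) (C.dl_le hhdl) (fun b hb => by
      obtain ⟨z, b', rfl, hz, hb'⟩ := C.rh_of g hb
      have h1 : killingForm K L n b' = 0 := hnν.2 b' (C.rh_le_q g hJ' hb')
      have h2 : killingForm K L n z = 0 := by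
        rw [killing_symm]; exact killing_Z_dl hz hndl
      rw [hhx, map_nsmul, LinearMap.smul_apply, map_add, h1, h2, add_zero, smul_zero])
    obtain ⟨z, ρ', rfl, hz, hρ'⟩ := C.rh_of g hρ
    obtain ⟨cz, hcz, hc'⟩ := C.levi3 c (C.cent_of_x hc)
    have hc2 : ⁅x, c - cz⁆ = 0 := by
      rw [lie_sub, hc, ← lie_skew x cz, hcz.2 x C.x_cent]
      simp
    have hc3 : c - cz ∈ C.q g := ⟨C.c3 g hc2 hc', hc'⟩
    have hρ3 : ρ' ∈ C.q g := C.rh_le_q g hJ' hρ'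
    have h0 : z + cz = 0 := by
      refine C.Z_dl (hz.add hcz) ?_
      have e2 : z + cz = h - ρ' - (c - cz) := by rw [e]; abel
      rw [e2]
      exact Submodule.sub_mem _ (Submodule.sub_mem _ hhdl hρ3.2) hc'
    have e3 : h = ρ' + (c - cz) := by
      calc h = (z + cz) + (ρ' + (c - cz)) := by rw [e]; abel
        _ = _ := by rw [h0, zero_add]
    rw [e3]
    exact Submodule.add_mem _ hρ3 hc3
  -- the space of leading terms
  obtain ⟨h', hh', eh⟩ := hhq.1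
  have hst : ∀ ρ ∈ dr r, ⁅h', ρ⁆ ∈ dr r := fun ρ hρ => lie_mem_dr (dr_le r hh'.1) (dr_le r hρ)
  have hnr : n ∈ dr r := C.H3 n hxn hndl
  have hn0' : n ∈ dg K w 0 := C.dl_le hndl
  have hnst : ∀ ρ ∈ dr r, ⁅n, ρ⁆ ∈ dr r := fun ρ hρ => lie_mem_dr (dr_le r hnr) (dr_le r hρ)
  have hstW : ∀ a ∈ g.lead (dr r), (LieAlgebra.ad K L h) a ∈ g.lead (dr r) := by
    intro a ha
    rw [← eh]
    exact g.lead_stable hh'.2 hst ha
  have htr' : ∀ (h1 : L), g.P 0 h' = h1 →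
      ∀ hst1 : ∀ a ∈ g.lead (dr r), (LieAlgebra.ad K L h1) a ∈ g.lead (dr r),
      LinearMap.trace K (g.lead (dr r)) ((LieAlgebra.ad K L h1).restrict hst1) = 0 := by
    rintro _ rfl hst1
    rw [g.trace_lead hh'.2 hst hst1]
    exact trace_derived r (dr r) rfl (fun a ha ρ hρ => lie_mem_dr ha (dr_le r hρ)) hh'.1 hst
  have htr := htr' h eh hstW
  have hOf := hO K L (LieAlgebra.ad K L h) (LieAlgebra.ad K L n) (LieAlgebra.ad K L f)
    (by
      ext y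
      show ⁅h, ⁅n, y⁆⁆ - ⁅n, ⁅h, y⁆⁆ = 2 • ⁅n, y⁆
      rw [← lie_lie, hhn, nsmul_lie])
    (by
      ext y
      show ⁅h, ⁅f, y⁆⁆ - ⁅f, ⁅h, y⁆⁆ = -(2 • ⁅f, y⁆)
      rw [← lie_lie, hhf, neg_lie, nsmul_lie])
    (by
      ext y
      show ⁅n, ⁅f, y⁆⁆ - ⁅f, ⁅n, y⁆⁆ = ⁅h, y⁆
      rw [← lie_lie, hnf])
    (g.lead (dr r))
    (fun a ha => by
      have h1 := g.lead_stable (g.dg_le_F le_rfl hn0') hnst ha
      rw [g.same 0 n hn0'] at h1
      exact h1)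
    hstW htr
  have hhW : h ∈ g.lead (dr r) := by
    rw [← eh]
    exact g.P_mem_lead hh'.1 hh'.2
  have hfW : f ∈ g.lead (dr r) := by
    have h1 : ⁅f, h⁆ ∈ g.lead (dr r) := hOf h hhW
    have h2 : f = (2 : K)⁻¹ • ⁅f, h⁆ := by
      rw [← lie_skew, hhf, neg_neg, ← Nat.cast_smul_eq_nsmul K, smul_smul]
      push_cast
      rw [inv_mul_cancel₀ two_ne_zero, one_smul]
    rw [h2]
    exact Submodule.smul_mem _ _ h1
  obtain ⟨ρ, hρ1, hρ2, hρ3⟩ := g.lead_zero hfW (C.dl_le hfdl)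
  have hfq : f ∈ C.q g := ⟨⟨ρ, ⟨hρ1, hρ2⟩, hρ3⟩, hfdl⟩
  have hfn : ⁅f, n⁆ ∈ C.nu g := C.rh_nu g (C.q_rh g hfq) hnν
  have hhν : h ∈ C.nu g := by
    have h1 : h = -⁅f, n⁆ := by rw [← hnf, lie_skew]
    rw [h1]
    exact Submodule.neg_mem _ hfn
  obtain ⟨k, hk⟩ := C.nu_nil g hJ' hhν
  have hpow : ∀ i : ℕ, ((LieAlgebra.ad K L h) ^ i) n = (2 : K) ^ i • n := by
    intro i
    induction i with
    | zero => simp
    | succ i ih =>
      rw [pow_succ', Module.End.mul_apply, ih, map_smul]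
      show (2 : K) ^ i • ⁅h, n⁆ = _
      rw [hhn, ← Nat.cast_smul_eq_nsmul K, smul_smul]
      push_cast
      rw [pow_succ]
  have h1 := hpow k
  rw [hk, LinearMap.zero_apply] at h1
  rcases smul_eq_zero.mp h1.symm with h2 | h2
  · exact pow_ne_zero k two_ne_zero h2
  · exact hn0 h2

end Pool.Agent.TH293.Sem
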