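import Mathlib
import Pool.Agent.TH444.ML.Defs

/-!
ML-I QuadUnif: uniform upper bound for the number of quadratic extensions (job 3093).
-/

set_option autoImplicit false

open NumberField Filter Topology

namespace Pool.Agent.TH293.J3093

open Pool.Agent.TH444.ML

section units

variable (M : Type) [Field M] [NumberField M]

/-- the parities of the exponents of a unit -/
theorem exists_par : ∃ par : (𝓞 M)ˣ → Bool × (Fin (Units.rank M) → Bool),
    ∀ u u' : (𝓞 M)ˣ, par u = par u' → ∃ v : (𝓞 M)ˣ, u' = v ^ 2 * u := by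
  classical
  obtain ⟨g, hg⟩ := IsCyclic.exists_generator (α := Units.torsion M)
  have h1 : ∀ u : (𝓞 M)ˣ, ∃ (m : ℤ) (e : Fin (Units.rank M) → ℤ),
      u = (g : (𝓞 M)ˣ) ^ m * ∏ i, (Units.fundSystem M i) ^ (e i) := by
    intro u
    obtain ⟨⟨ζ, e⟩, hu, -⟩ := Units.exist_unique_eq_mul_prod M u
    obtain ⟨m, hm⟩ := Subgroup.mem_zpowers_iff.1 (hg ζ)
    refine ⟨m, e, ?_⟩
    rw [hu, ← hm]
    simp
  choose m e hme using h1
  refine ⟨fun u => (decide (Even (m u)), fun i => decide (Even (e u i))), ?_⟩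
  intro u u' h
  rw [Prod.mk.injEq] at h
  obtain ⟨h2, h3⟩ := h
  have h4 : Even (m u' - m u) := by
    rw [Int.even_sub]
    have := decide_eq_decide.1 h2
    exact this.symm
  have h5 : ∀ i, Even (e u' i - e u i) := by
    intro i
    rw [Int.even_sub]
    have := decide_eq_decide.1 (congrFun h3 i)
    exact this.symm
  obtain ⟨a, ha⟩ := h4
  choose b hb using h5
  refine ⟨(g : (𝓞 M)ˣ) ^ a * ∏ i, (Units.fundSystem M i) ^ (b i), ?_⟩
  rw [hme u', hme u, mul_pow, ← Finset.prod_pow]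
  have e1 : (g : (𝓞 M)ˣ) ^ m u' = ((g : (𝓞 M)ˣ) ^ a) ^ 2 * (g : (𝓞 M)ˣ) ^ m u := by
    rw [← zpow_natCast, ← zpow_mul, ← zpow_add]
    congr 1
    push_cast
    linarith
  have e2 : ∏ i, (Units.fundSystem M i) ^ (e u' i) =
      (∏ i, ((Units.fundSystem M i) ^ (b i)) ^ 2) * ∏ i, (Units.fundSystem M i) ^ (e u i) := by
    rw [← Finset.prod_mul_distrib]
    refine Finset.prod_congr rfl fun i _ => ?_
    rw [← zpow_natCast, ← zpow_mul, ← zpow_add]
    congr 1
    push_cast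
    linarith [hb i]
  rw [e1, e2]
  exact mul_mul_mul_comm _ _ _ _

theorem rank_lt : Units.rank M + 1 ≤ Module.finrank ℚ M := by
  have h1 := InfinitePlace.card_eq_nrRealPlaces_add_nrComplexPlaces (K := M)
  have h2 := InfinitePlace.card_add_two_mul_card_eq_rank (K := M)
  have h3 : 0 < Fintype.card (InfinitePlace M) := Fintype.card_pos
  unfold Units.rank
  omega

theorem card_par : Fintype.card (Bool × (Fin (Units.rank M) → Bool)) ≤
    2 ^ Module.finrank ℚ M := by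
  rw [Fintype.card_prod, Fintype.card_fun, Fintype.card_bool, Fintype.card_fin,
    mul_comm, ← pow_succ]
  exact Nat.pow_le_pow_right (by norm_num) (rank_lt M)

/-- small representatives of the ideal classes -/
theorem exists_rep : ∃ rep : ClassGroup (𝓞 M) → Ideal (𝓞 M), Rep M rep ∧
    (∀ C, rep C ≠ ⊥) ∧ Function.Injective rep ∧
    ∀ C, (Ideal.absNorm (rep C) : ℝ) ≤
      2 ^ Module.finrank ℚ M * ((|discr M| : ℤ) : ℝ) ^ (1 / 2 : ℝ) := by
  have h1 := fun C : ClassGroup (𝓞 M) => NumberField.exists_ideal_in_class_of_norm_le C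
  choose I hI hN using h1
  refine ⟨fun C => (I C : Ideal (𝓞 M)), ?_, ?_, ?_, ?_⟩
  · intro C
    exact ⟨(I C).2, hI C⟩
  · intro C
    exact nonZeroDivisors.coe_ne_zero (I C)
  · intro C C' h
    rw [← hI C, ← hI C']
    congr 1
    exact Subtype.ext h
  · intro C
    refine (hN C).trans ?_
    have hpi : (4 / Real.pi : ℝ) ≤ 2 := by
      rw [div_le_iff₀ Real.pi_pos]
      linarith [Real.pi_gt_three]
    have hpi0 : (0 : ℝ) ≤ 4 / Real.pi := by positivity
    have h2 : (4 / Real.pi : ℝ) ^ InfinitePlace.nrComplexPlaces M ≤ 2 ^ Module.finrank ℚ M := by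
      calc (4 / Real.pi : ℝ) ^ InfinitePlace.nrComplexPlaces M
          ≤ 2 ^ InfinitePlace.nrComplexPlaces M := pow_le_pow_left₀ hpi0 hpi _
        _ ≤ 2 ^ Module.finrank ℚ M := by
          apply pow_le_pow_right₀ (by norm_num)
          have := InfinitePlace.card_add_two_mul_card_eq_rank (K := M)
          omega
    have h3 : ((Module.finrank ℚ M).factorial : ℝ) / (Module.finrank ℚ M : ℝ) ^ Module.finrank ℚ M
        ≤ 1 := by
      have hpos : 0 < Module.finrank ℚ M := Module.finrank_pos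
      rw [div_le_one (by positivity)]
      exact_mod_cast Nat.factorial_le_pow (Module.finrank ℚ M)
    have h4 : √((|discr M| : ℤ) : ℝ) = ((|discr M| : ℤ) : ℝ) ^ (1 / 2 : ℝ) :=
      Real.sqrt_eq_rpow _
    have h5 : 0 ≤ √((|discr M| : ℤ) : ℝ) := Real.sqrt_nonneg _
    have h6 : √|((discr M : ℤ) : ℝ)| = √((|discr M| : ℤ) : ℝ) := by
      push_cast
      rfl
    rw [h6, ← h4]
    calc (4 / Real.pi : ℝ) ^ InfinitePlace.nrComplexPlaces M *
          (((Module.finrank ℚ M).factorial : ℝ) / (Module.finrank ℚ M : ℝ) ^ Module.finrank ℚ M *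
            √((|discr M| : ℤ) : ℝ))
        ≤ 2 ^ Module.finrank ℚ M * (1 * √((|discr M| : ℤ) : ℝ)) := by
          gcongr
      _ = _ := by rw [one_mul]

end units

/-- a generator of a principal ideal -/
theorem exists_gen (M : Type) [Field M] [NumberField M] :
    ∃ w : 𝓞 M → (𝓞 M)ˣ, ∀ α β : 𝓞 M, Ideal.span {α} = Ideal.span {β} →
      β * (w α : 𝓞 M) = α * (w β : 𝓞 M) := by
  classical
  -- a generator depending on the ideal
  let gen : Ideal (𝓞 M) → 𝓞 M := fun I => if h : ∃ x, I = Ideal.span {x} then h.choose else 0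
  have hgen : ∀ α : 𝓞 M, Ideal.span {gen (Ideal.span {α})} = Ideal.span {α} := by
    intro α
    have h : ∃ x, Ideal.span {α} = Ideal.span {x} := ⟨α, rfl⟩
    have h1 : gen (Ideal.span {α}) = h.choose := dif_pos h
    rw [h1]
    exact h.choose_spec.symm
  have h2 : ∀ α : 𝓞 M, ∃ u : (𝓞 M)ˣ, gen (Ideal.span {α}) * (u : 𝓞 M) = α := fun α =>
    Ideal.span_singleton_eq_span_singleton.1 (hgen α)
  choose w hw using h2
  refine ⟨w, fun α β h => ?_⟩
  have e1 := hw α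
  have e2 := hw β
  rw [h] at e1
  calc β * (w α : 𝓞 M) = gen (Ideal.span {β}) * (w β : 𝓞 M) * (w α : 𝓞 M) := by rw [e2]
    _ = gen (Ideal.span {β}) * (w α : 𝓞 M) * (w β : 𝓞 M) := by ring
    _ = α * (w β : 𝓞 M) := by rw [e1]

theorem disc_pos (M : Type) [Field M] [NumberField M] : (1 : ℝ) ≤ ((|discr M| : ℤ) : ℝ) := by
  have h1 : discr M ≠ 0 := discr_ne_zero M
  have h2 : (1 : ℤ) ≤ |discr M| := Int.one_le_abs h1
  exact_mod_cast h2

theorem quadUnif (h1 : DiscQuad) (h2 : KumP) (h3 : IdealUnif) (h4 : PrincUnif) : QuadUnif := by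
  classical
  intro D
  obtain ⟨CI, hCI⟩ := h3 D
  obtain ⟨CP, hCP1, hCP⟩ := h4 D
  refine ⟨|CI| * (2 ^ D) ^ (5 / 4 : ℝ) * (CP * 4 ^ D * (|CI| * CP ^ (5 / 4 : ℝ))) * 2 ^ D, ?_⟩
  intro M E _ _ _ _ _ hD Y hY
  set d : ℝ := ((|discr M| : ℤ) : ℝ) with hd
  have hd1 : 1 ≤ d := disc_pos M
  have hd0 : 0 ≤ d := by linarith
  set δ : ℝ := d ^ (1 / 2 : ℝ) with hδ
  have hδ1 : 1 ≤ δ := Real.one_le_rpow hd1 (by norm_num)
  obtain ⟨k, hk⟩ := h1 M
  obtain ⟨rep, hrep, hrep0, hinj, hrepN⟩ := exists_rep M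
  rw [hD] at hrepN
  obtain ⟨kum1, kum2, -⟩ := h2 M E rep hrep
  obtain ⟨par, hpar⟩ := exists_par M
  obtain ⟨w, hw⟩ := exists_gen M
  -- finiteness of the ideals of bounded norm
  have hIfin : ∀ Z : ℝ, 1 ≤ Z → {I : Ideal (𝓞 M) | I ≠ ⊥ ∧ (Ideal.absNorm I : ℝ) ≤ Z}.Finite :=
    fun Z hZ => (hCI M hD Z hZ).1
  have hIcard : ∀ Z : ℝ, 1 ≤ Z →
      (Set.ncard {I : Ideal (𝓞 M) | I ≠ ⊥ ∧ (Ideal.absNorm I : ℝ) ≤ Z} : ℝ) ≤
        |CI| * Z ^ (5 / 4 : ℝ) := by
    intro Z hZ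
    refine ((hCI M hD Z hZ).2).trans ?_
    exact mul_le_mul_of_nonneg_right (le_abs_self _) (Real.rpow_nonneg (by linarith) _)
  -- the class number
  have hcl : (Fintype.card (ClassGroup (𝓞 M)) : ℝ) ≤ |CI| * (2 ^ D * δ) ^ (5 / 4 : ℝ) := by
    have hZ : (1 : ℝ) ≤ 2 ^ D * δ := by
      have : (1 : ℝ) ≤ 2 ^ D := one_le_pow₀ (by norm_num)
      nlinarith
    refine le_trans ?_ (hIcard _ hZ)
    rw [← Nat.card_eq_fintype_card, ← Set.ncard_univ]
    have h5 : (Set.univ : Set (ClassGroup (𝓞 M))).ncard ≤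
        {I : Ideal (𝓞 M) | I ≠ ⊥ ∧ (Ideal.absNorm I : ℝ) ≤ 2 ^ D * δ}.ncard :=
      Set.ncard_le_ncard_of_injOn rep (fun C _ => ⟨hrep0 C, hrepN C⟩)
        (fun C _ C' _ h => hinj h) (hIfin _ hZ)
    exact_mod_cast h5
  -- data of an extension
  have hdata : ∀ L : IntermediateField M E, ∃ (C : ClassGroup (𝓞 M)) (α : 𝓞 M) (s : E),
      Module.finrank M L = 2 → Sqf M (rep C) α ∧
        s ^ 2 = algebraMap M E (α : M) ∧ (∀ x : M, algebraMap M E x ≠ s) ∧
        L = IntermediateField.adjoin M {s} := by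
    intro L
    by_cases h : Module.finrank M L = 2
    · obtain ⟨C, α, s, h5⟩ := kum1 L h
      exact ⟨C, α, s, fun _ => h5⟩
    · exact ⟨ClassGroup.mk0 1, 0, 0, fun h' => absurd h' h⟩
  choose cl al sq hdat using hdata
  -- the principal ideals
  let P : ClassGroup (𝓞 M) → Set (Ideal (𝓞 M)) := fun C =>
    {I | I ≠ ⊥ ∧ (rep C) ^ 2 ∣ I ∧ (∃ x, I = Ideal.span {x}) ∧
      (Ideal.absNorm I : ℝ) ≤ Ideal.absNorm ((rep C) ^ 2) * (4 ^ D * Y)}
  have hLP : ∀ L ∈ QS M E Y, 1 ≤ 4 ^ D * Y ∧ Ideal.span {al L} ∈ P (cl L) := by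
    rintro L ⟨hL2, hNF, hLd⟩
    obtain ⟨⟨hα0, 𝔡, hsf, h𝔡⟩, hs, hsM, hLs⟩ := hdat L hL2
    have h𝔡0 : 𝔡 ≠ 0 := hsf.ne_zero
    have hN1 : (1 : ℝ) ≤ Ideal.absNorm 𝔡 := by
      have : Ideal.absNorm 𝔡 ≠ 0 := by
        rw [Ne, Ideal.absNorm_eq_zero_iff]
        exact h𝔡0
      exact_mod_cast Nat.one_le_iff_ne_zero.2 this
    have hsL : sq L ∈ L := by
      have h5 := IntermediateField.mem_adjoin_simple_self M (sq L)
      rw [← hLs] at h5
      exact h5
    have hdisc := hk.disc L (⟨sq L, hsL⟩ : L) (al L) 𝔡 (rep (cl L)) hL2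
      (by
        apply Subtype.ext
        exact hs) (by
        intro x hx
        exact hsM x (congrArg Subtype.val hx)) hα0 hsf h𝔡
    have hk1 := hk.le (rep (cl L)) (al L) (hrep0 _)
    rw [hD] at hdisc hk1
    have hdiscR : ((|discr L| : ℤ) : ℝ) * (k (rep (cl L)) (al L) : ℝ) ^ 2 =
        4 ^ D * d ^ 2 * Ideal.absNorm 𝔡 := by
      have e1 : ((|discr L| : ℤ) : ℝ) = ((discr L).natAbs : ℝ) := by
        rw [Int.abs_eq_natAbs]
        exact Int.cast_natCast _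
      have e2 : d = ((discr M).natAbs : ℝ) := by
        rw [hd, Int.abs_eq_natAbs]
        exact Int.cast_natCast _
      rw [e1, e2]
      exact_mod_cast hdisc
    have hkR : (k (rep (cl L)) (al L) : ℝ) ≤ 4 ^ D := by exact_mod_cast hk1
    have hk0 : (0 : ℝ) ≤ (k (rep (cl L)) (al L) : ℝ) := Nat.cast_nonneg _
    have hLd' : ((|discr L| : ℤ) : ℝ) ≤ Y * d ^ 2 := by
      have e3 : ((discr M : ℤ) : ℝ) ^ 2 = d ^ 2 := by
        rw [hd]
        push_cast
        rw [sq_abs]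
      rw [← e3]
      exact hLd
    have hL0 : (0 : ℝ) ≤ ((|discr L| : ℤ) : ℝ) := by positivity
    have hNd : (Ideal.absNorm 𝔡 : ℝ) ≤ 4 ^ D * Y := by
      have h4 : (0 : ℝ) < 4 ^ D := by positivity
      have hd2 : (0 : ℝ) < d ^ 2 := by positivity
      have e4 : 4 ^ D * d ^ 2 * (Ideal.absNorm 𝔡 : ℝ) ≤ 4 ^ D * d ^ 2 * (4 ^ D * Y) := by
        rw [← hdiscR]
        calc ((|discr L| : ℤ) : ℝ) * (k (rep (cl L)) (al L) : ℝ) ^ 2
            ≤ (Y * d ^ 2) * (4 ^ D) ^ 2 := by gcongr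
          _ = 4 ^ D * d ^ 2 * (4 ^ D * Y) := by ring
      exact le_of_mul_le_mul_left e4 (by positivity)
    refine ⟨hN1.trans hNd, ?_, ?_, ⟨al L, rfl⟩, ?_⟩
    · rw [Ne, Ideal.span_singleton_eq_bot]
      exact hα0
    · rw [h𝔡]
      exact Dvd.intro_left _ rfl
    · rw [h𝔡, map_mul, mul_comm]
      push_cast
      exact mul_le_mul_of_nonneg_left hNd (Nat.cast_nonneg _)
  have hC0 : (0 : ℝ) ≤ |CI| * (2 ^ D) ^ (5 / 4 : ℝ) * (CP * 4 ^ D * (|CI| * CP ^ (5 / 4 : ℝ))) *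
      2 ^ D := by positivity
  rcases Set.eq_empty_or_nonempty (QS M E Y) with hemp | ⟨L0, hL0⟩
  · rw [hemp]
    refine ⟨Set.finite_empty, ?_⟩
    rw [Set.ncard_empty, Nat.cast_zero]
    exact mul_nonneg (mul_nonneg hC0 (Real.rpow_nonneg hd0 _)) hY
  have hY1 : 1 ≤ 4 ^ D * Y := (hLP L0 hL0).1
  have hCPδ : 1 ≤ CP * δ := by nlinarith
  have hPfin : ∀ C, (P C).Finite := by
    intro C
    have hN : (1 : ℝ) ≤ Ideal.absNorm ((rep C) ^ 2) := by
      have : Ideal.absNorm ((rep C) ^ 2) ≠ 0 := by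
        rw [Ne, Ideal.absNorm_eq_zero_iff]
        exact pow_ne_zero 2 (hrep0 C)
      exact_mod_cast Nat.one_le_iff_ne_zero.2 this
    refine (hIfin (Ideal.absNorm ((rep C) ^ 2) * (4 ^ D * Y)) (by nlinarith)).subset ?_
    rintro I ⟨h5, -, -, h6⟩
    exact ⟨h5, h6⟩
  have hPcard : ∀ C, ((P C).ncard : ℝ) ≤
      CP * δ * (4 ^ D * Y) * (|CI| * (CP * δ) ^ (5 / 4 : ℝ)) := by
    intro C
    refine (hCP M hD ((rep C) ^ 2) (pow_ne_zero 2 (hrep0 C)) (4 ^ D * Y) hY1).trans ?_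
    exact mul_le_mul_of_nonneg_left (hIcard _ hCPδ) (by positivity)
  -- the map
  let W := Bool × (Fin (Units.rank M) → Bool)
  let Φ : IntermediateField M E → ClassGroup (𝓞 M) × Ideal (𝓞 M) × W :=
    fun L => (cl L, Ideal.span {al L}, par (w (al L)))
  let T : Finset (ClassGroup (𝓞 M) × Ideal (𝓞 M) × W) :=
    Finset.univ.biUnion fun C => {C} ×ˢ ((hPfin C).toFinset ×ˢ Finset.univ)
  have hmaps : ∀ L ∈ QS M E Y, Φ L ∈ (T : Set (ClassGroup (𝓞 M) × Ideal (𝓞 M) × W)) := by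
    intro L hL
    rw [Finset.mem_coe, Finset.mem_biUnion]
    refine ⟨cl L, Finset.mem_univ _, ?_⟩
    rw [Finset.mem_product, Finset.mem_product]
    exact ⟨Finset.mem_singleton_self _, (hPfin _).mem_toFinset.2 (hLP L hL).2, Finset.mem_univ _⟩
  have hinjΦ : Set.InjOn Φ (QS M E Y) := by
    rintro L ⟨hL2, -⟩ L' ⟨hL2', -⟩ hΦ
    obtain ⟨⟨hα0, -⟩, hs, -, hLs⟩ := hdat L hL2
    obtain ⟨⟨hα0', -⟩, hs', -, hLs'⟩ := hdat L' hL2'
    have e1 : Ideal.span {al L} = Ideal.span {al L'} := (Prod.ext_iff.1 (Prod.ext_iff.1 hΦ).2).1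
    have e2 : par (w (al L)) = par (w (al L')) := (Prod.ext_iff.1 (Prod.ext_iff.1 hΦ).2).2
    obtain ⟨v, hv⟩ := hpar _ _ e2
    have e3 := hw _ _ e1
    rw [hv] at e3
    push_cast at e3
    have e4 : al L' = (v : 𝓞 M) ^ 2 * al L := by
      have hwu : ((w (al L) : (𝓞 M)ˣ) : 𝓞 M) ≠ 0 := Units.ne_zero _
      apply mul_right_cancel₀ hwu
      rw [e3]
      ring
    have e5 : (sq L') ^ 2 = (algebraMap M E ((v : 𝓞 M) : M) * sq L) ^ 2 := by
      rw [mul_pow, hs, hs', e4, ← map_pow, ← map_mul]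
      push_cast
      rfl
    have hv0 : ((v : 𝓞 M) : M) ≠ 0 := by
      have : (v : 𝓞 M) ≠ 0 := Units.ne_zero v
      exact fun h => this (RingOfIntegers.ext h)
    have hsub : ∀ (x : M) (y z : E), x ≠ 0 → y = algebraMap M E x * z →
        IntermediateField.adjoin M {y} = IntermediateField.adjoin M {z} := by
      intro x y z hx hy
      apply le_antisymm
      · rw [IntermediateField.adjoin_simple_le_iff, hy]
        exact mul_mem (IntermediateField.algebraMap_mem _ x)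
          (IntermediateField.mem_adjoin_simple_self M z)
      · rw [IntermediateField.adjoin_simple_le_iff]
        have : z = algebraMap M E x⁻¹ * y := by
          rw [hy, ← mul_assoc, ← map_mul, inv_mul_cancel₀ hx, map_one, one_mul]
        rw [this]
        exact mul_mem (IntermediateField.algebraMap_mem _ _)
          (IntermediateField.mem_adjoin_simple_self M y)
    rw [hLs, hLs']
    rcases sq_eq_sq_iff_eq_or_eq_neg.1 e5 with h | h
    · exact (hsub _ _ _ hv0 h).symm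
    · refine (hsub (-((v : 𝓞 M) : M)) _ _ (neg_ne_zero.2 hv0) ?_).symm
      rw [h, map_neg, neg_mul]
  have hfin : (QS M E Y).Finite := by
    refine Set.Finite.of_finite_image (f := Φ) (T.finite_toSet.subset ?_) hinjΦ
    rintro _ ⟨L, hL, rfl⟩
    exact hmaps L hL
  refine ⟨hfin, ?_⟩
  have hcard : (QS M E Y).ncard ≤ T.card := by
    rw [← Set.ncard_coe_finset]
    exact Set.ncard_le_ncard_of_injOn Φ hmaps hinjΦ T.finite_toSet
  have hT : (T.card : ℝ) ≤ (Fintype.card (ClassGroup (𝓞 M)) : ℝ) *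
      ((CP * δ * (4 ^ D * Y) * (|CI| * (CP * δ) ^ (5 / 4 : ℝ))) * 2 ^ D) := by
    have e1 : (T.card : ℝ) ≤ ∑ C : ClassGroup (𝓞 M), ((P C).ncard : ℝ) * 2 ^ D := by
      have e2 : T.card ≤ ∑ C : ClassGroup (𝓞 M), (P C).ncard * 2 ^ D := by
        refine Finset.card_biUnion_le.trans (Finset.sum_le_sum fun C _ => ?_)
        rw [Finset.card_product, Finset.card_singleton, one_mul, Finset.card_product,
          Set.ncard_eq_toFinset_card _ (hPfin C), Finset.card_univ]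
        apply Nat.mul_le_mul_left
        have := card_par M
        rwa [hD] at this
      exact_mod_cast e2
    refine e1.trans ((Finset.sum_le_sum fun C _ =>
      mul_le_mul_of_nonneg_right (hPcard C) (by positivity)).trans ?_)
    rw [Finset.sum_const, Finset.card_univ, nsmul_eq_mul]
  calc ((QS M E Y).ncard : ℝ) ≤ (T.card : ℝ) := by exact_mod_cast hcard
    _ ≤ _ := hT
    _ ≤ (|CI| * (2 ^ D * δ) ^ (5 / 4 : ℝ)) *
      ((CP * δ * (4 ^ D * Y) * (|CI| * (CP * δ) ^ (5 / 4 : ℝ))) * 2 ^ D) :=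
        mul_le_mul_of_nonneg_right hcl (by positivity)
    _ = _ := by
      have hCP0 : 0 ≤ CP := by linarith
      have hδ0 : 0 ≤ δ := by linarith
      rw [Real.mul_rpow (by positivity) hδ0, Real.mul_rpow hCP0 hδ0]
      have e6 : d ^ (7 / 4 : ℝ) = δ * δ ^ (5 / 4 : ℝ) * δ ^ (5 / 4 : ℝ) := by
        rw [hδ, ← Real.rpow_mul hd0, ← Real.rpow_add (by linarith), ← Real.rpow_add (by linarith)]
        norm_num
      rw [e6]
      ring

end Pool.Agent.TH293.J3093
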