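import Mathlib

set_option autoImplicit false

/-!
Arbitrarily large finite sets of positive integers in which, for all `x < y`,
`a₁ (y - x)` divides `x` and `a₂ (y - x)` divides `y` (`a₁`, `a₂` coprime).
-/

namespace Pool.Agent.TH293.RatioClique

/-- splitting off the part prime to `m` -/
theorem split (m : ℕ) : ∀ n : ℕ, 0 < n → ∃ u v k : ℕ, n = u * v ∧ Nat.Coprime u m ∧ v ∣ m ^ k := by
  intro n
  induction n using Nat.strong_induction_on with
  | _ n ih =>
    intro hn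
    by_cases h : Nat.Coprime n m
    · exact ⟨n, 1, 0, by simp, h, by simp⟩
    · obtain ⟨n', hn'⟩ := Nat.gcd_dvd_left n m
      have hg0 : 0 < Nat.gcd n m := Nat.gcd_pos_of_pos_left _ hn
      have hg : 1 < Nat.gcd n m := by
        have : Nat.gcd n m ≠ 1 := h
        omega
      have hn'0 : 0 < n' := by
        rcases Nat.eq_zero_or_pos n' with h0 | h0
        · rw [h0, mul_zero] at hn'
          omega
        · exact h0
      have hlt : n' < n := by
        calc n' = 1 * n' := (one_mul _).symm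
          _ < Nat.gcd n m * n' := Nat.mul_lt_mul_of_pos_right hg hn'0
          _ = n := hn'.symm
      obtain ⟨u, v, k, h1, h2, h3⟩ := ih n' hlt hn'0
      refine ⟨u, Nat.gcd n m * v, k + 1, ?_, h2, ?_⟩
      · calc n = Nat.gcd n m * n' := hn'
          _ = Nat.gcd n m * (u * v) := by rw [← h1]
          _ = u * (Nat.gcd n m * v) := by ring
      · rw [pow_succ, mul_comm]
        exact mul_dvd_mul h3 (Nat.gcd_dvd_right _ _)

/-- the extension step, arithmetic part -/
theorem step_arith (a1 a2 : ℕ) (h1 : 0 < a1) (h2 : 0 < a2) (hc : Nat.Coprime a1 a2)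
    (S : Finset ℤ) (hpos : ∀ x ∈ S, 0 < x) (hdiv : ∀ x ∈ S, (a2 : ℤ) ∣ x)
    (L : ℕ) (hL : 0 < L) (hL2 : a2 ∣ L) :
    ∃ M K : ℤ, 0 < M ∧ 0 < K ∧ (L : ℤ) ∣ M + K ∧ ∀ x ∈ S,
      (a1 : ℤ) * (x + K) ∣ M ∧ (a2 : ℤ) * (x + K) ∣ M + K + x := by
  obtain ⟨u, v, k, huv, hu, hv⟩ := split a2 L hL
  have hu0 : 0 < u := by
    rcases Nat.eq_zero_or_pos u with h0 | h0
    · rw [h0, zero_mul] at huv
      omega
    · exact h0
  -- `K = u`
  have hcop : ∀ x ∈ S, IsCoprime (x + (u : ℤ)) (a2 : ℤ) := by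
    intro x hx
    obtain ⟨c, rfl⟩ := hdiv x hx
    have h3 : IsCoprime (u : ℤ) (a2 : ℤ) := Nat.isCoprime_iff_coprime.2 hu
    have := h3.add_mul_left_left c
    rwa [add_comm] at this
  let Q : ℤ := a1 * ∏ x ∈ S, (x + (u : ℤ))
  have hQpos : 0 < Q := by
    refine mul_pos (by exact_mod_cast h1) (Finset.prod_pos fun x hx => ?_)
    have := hpos x hx
    have hu' : (0 : ℤ) < u := by exact_mod_cast hu0
    linarith
  have hQcop : IsCoprime Q (a2 : ℤ) := by
    refine IsCoprime.mul_left (Nat.isCoprime_iff_coprime.2 hc) ?_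
    exact IsCoprime.prod_left fun x hx => hcop x hx
  have hgcd : (Int.gcd Q L : ℤ) ∣ (u : ℤ) := by
    have h4 : (Int.gcd Q L : ℤ) ∣ Q := Int.gcd_dvd_left ..
    have h5 : (Int.gcd Q L : ℤ) ∣ (u : ℤ) * v := by
      have : (Int.gcd Q L : ℤ) ∣ (L : ℤ) := Int.gcd_dvd_right ..
      rw [huv] at this
      push_cast at this
      rwa [huv]
      
    have h6 : IsCoprime (Int.gcd Q L : ℤ) (v : ℤ) := by
      have h7 : IsCoprime (Int.gcd Q L : ℤ) (a2 : ℤ) := hQcop.of_isCoprime_of_dvd_left h4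
      have h8 : IsCoprime (Int.gcd Q L : ℤ) ((a2 : ℤ) ^ k) := h7.pow_right
      exact h8.of_isCoprime_of_dvd_right (by exact_mod_cast hv)
    exact h6.dvd_of_dvd_mul_right h5
  obtain ⟨w, hw⟩ := hgcd
  -- Bezout
  have hbez : (Int.gcd Q L : ℤ) = Q * Int.gcdA Q L + L * Int.gcdB Q L := Int.gcd_eq_gcd_ab Q L
  obtain ⟨M0, hM0Q, hM0L⟩ : ∃ M0 : ℤ, Q ∣ M0 ∧ (L : ℤ) ∣ M0 + u := by
    refine ⟨-(Q * Int.gcdA Q L * w), ⟨-(Int.gcdA Q L * w), by ring⟩, ⟨Int.gcdB Q L * w, ?_⟩⟩
    rw [hw, hbez]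
    ring
  have hLpos : (0 : ℤ) < L := by exact_mod_cast hL
  let M : ℤ := M0 + Q * L * (|M0| + 1)
  have hMpos : 0 < M := by
    have h3 : 1 ≤ Q * L := by
      have : 0 < Q * L := mul_pos hQpos hLpos
      linarith
    have h4 : |M0| + 1 ≤ Q * L * (|M0| + 1) := by
      have : 0 ≤ |M0| + 1 := by positivity
      nlinarith
    have h5 := neg_abs_le M0
    simp only [M]
    linarith
  have hMQ : Q ∣ M := dvd_add hM0Q ⟨L * (|M0| + 1), by ring⟩
  have hML : (L : ℤ) ∣ M + u := by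
    have : M + u = (M0 + u) + L * (Q * (|M0| + 1)) := by simp only [M]; ring
    rw [this]
    exact dvd_add hM0L (dvd_mul_right _ _)
  refine ⟨M, u, hMpos, by exact_mod_cast hu0, hML, fun x hx => ?_⟩
  have h3 : (a1 : ℤ) * (x + u) ∣ M :=
    (mul_dvd_mul_left _ (Finset.dvd_prod_of_mem (fun x => x + (u : ℤ)) hx)).trans hMQ
  refine ⟨h3, ?_⟩
  obtain ⟨t, ht⟩ : (x + (u : ℤ)) ∣ M := (dvd_mul_left _ _).trans h3
  have h4 : M + u + x = (x + u) * (t + 1) := by rw [ht]; ring
  have h5 : (a2 : ℤ) ∣ (x + u) * (t + 1) := by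
    rw [← h4]
    exact dvd_add ((Int.natCast_dvd_natCast.2 hL2).trans hML) (hdiv x hx)
  have h6 : (a2 : ℤ) ∣ t + 1 := (hcop x hx).symm.dvd_of_dvd_mul_left h5
  rw [h4, mul_comm (a2 : ℤ)]
  exact mul_dvd_mul_left _ h6

/-- Arbitrarily large cliques. -/
theorem clique (a1 a2 : ℕ) (h1 : 0 < a1) (h2 : 0 < a2) (hc : Nat.Coprime a1 a2) (m : ℕ) :
    ∃ S : Finset ℤ, S.card = m ∧ (∀ x ∈ S, 0 < x) ∧ ∀ x ∈ S, ∀ y ∈ S, x < y →
      (a1 : ℤ) * (y - x) ∣ x ∧ (a2 : ℤ) * (y - x) ∣ y := by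
  classical
  induction m with
  | zero => exact ⟨∅, rfl, by simp, by simp⟩
  | succ m ih =>
    obtain ⟨S0, hcard, hpos0, hS0⟩ := ih
    have ha2 : (0 : ℤ) < a2 := by exact_mod_cast h2
    let S : Finset ℤ := S0.image fun x => (a2 : ℤ) * x
    have hScard : S.card = m := by
      rw [← hcard]
      refine Finset.card_image_of_injective _ fun x y h => ?_
      exact mul_left_cancel₀ ha2.ne' h
    have hpos : ∀ x ∈ S, 0 < x := by
      intro x hx
      obtain ⟨z, hz, rfl⟩ := Finset.mem_image.1 hx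
      exact mul_pos ha2 (hpos0 z hz)
    have hdiv : ∀ x ∈ S, (a2 : ℤ) ∣ x := by
      intro x hx
      obtain ⟨z, hz, rfl⟩ := Finset.mem_image.1 hx
      exact dvd_mul_right _ _
    have hS : ∀ x ∈ S, ∀ y ∈ S, x < y → (a1 : ℤ) * (y - x) ∣ x ∧ (a2 : ℤ) * (y - x) ∣ y := by
      intro x hx y hy hxy
      obtain ⟨z, hz, rfl⟩ := Finset.mem_image.1 hx
      obtain ⟨w, hw, rfl⟩ := Finset.mem_image.1 hy
      have hzw : z < w := lt_of_mul_lt_mul_left hxy ha2.le
      obtain ⟨⟨c, hc1⟩, ⟨d, hd1⟩⟩ := hS0 z hz w hw hzw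
      refine ⟨⟨c, ?_⟩, ⟨d, ?_⟩⟩
      · linear_combination (a2 : ℤ) * hc1
      · linear_combination (a2 : ℤ) * hd1
    -- common multiple
    let L : ℕ := a1 * a2 * ∏ z ∈ (S ×ˢ S).filter (fun z => z.1 < z.2), (z.2 - z.1).natAbs
    have hLpos : 0 < L := by
      refine mul_pos (mul_pos h1 h2) (Finset.prod_pos fun z hz => ?_)
      have := (Finset.mem_filter.1 hz).2
      omega
    have hL2 : a2 ∣ L := Dvd.dvd.mul_right (dvd_mul_left _ _) _
    have hLd : ∀ x ∈ S, ∀ y ∈ S, x < y → (a1 : ℤ) * (y - x) ∣ L ∧ (a2 : ℤ) * (y - x) ∣ L := by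
      intro x hx y hy hxy
      have hmem : (x, y) ∈ (S ×ˢ S).filter (fun z => z.1 < z.2) := by
        simp [hx, hy, hxy]
      have h3 : (y - x).natAbs ∣ ∏ z ∈ (S ×ˢ S).filter (fun z => z.1 < z.2), (z.2 - z.1).natAbs :=
        Finset.dvd_prod_of_mem (fun z : ℤ × ℤ => (z.2 - z.1).natAbs) hmem
      have h4 : (((y - x).natAbs : ℕ) : ℤ) = y - x := Int.natAbs_of_nonneg (by linarith)
      constructor
      · have h5 : a1 * (y - x).natAbs ∣ L := mul_dvd_mul (dvd_mul_right _ _) h3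
        have h6 := Int.natCast_dvd_natCast.2 h5
        rw [Nat.cast_mul, h4] at h6
        exact h6
      · have h5 : a2 * (y - x).natAbs ∣ L := mul_dvd_mul (dvd_mul_left _ _) h3
        have h6 := Int.natCast_dvd_natCast.2 h5
        rw [Nat.cast_mul, h4] at h6
        exact h6
    obtain ⟨M, K, hM, hK, hLMK, hMK⟩ := step_arith a1 a2 h1 h2 hc S hpos hdiv L hLpos hL2
    let S' : Finset ℤ := insert M (S.image fun x => M + K + x)
    have hnot : M ∉ S.image fun x => M + K + x := by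
      intro h
      obtain ⟨x, hx, hx2⟩ := Finset.mem_image.1 h
      have := hpos x hx
      linarith
    refine ⟨S', ?_, ?_, ?_⟩
    · rw [Finset.card_insert_of_notMem hnot, Finset.card_image_of_injective _
        (fun x y h => by simpa using h), hScard]
    · intro x hx
      rcases Finset.mem_insert.1 hx with rfl | hx
      · exact hM
      · obtain ⟨z, hz, rfl⟩ := Finset.mem_image.1 hx
        have := hpos z hz
        linarith
    · intro x hx y hy hxy
      rcases Finset.mem_insert.1 hx with rfl | hx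
      · rcases Finset.mem_insert.1 hy with rfl | hy
        · exact absurd hxy (lt_irrefl _)
        · obtain ⟨z, hz, rfl⟩ := Finset.mem_image.1 hy
          obtain ⟨h3, h4⟩ := hMK z hz
          have h5 : x + K + z - x = z + K := by ring
          rw [h5]
          exact ⟨h3, h4⟩
      · obtain ⟨z, hz, rfl⟩ := Finset.mem_image.1 hx
        rcases Finset.mem_insert.1 hy with rfl | hy
        · have := hpos z hz
          linarith
        · obtain ⟨w, hw, rfl⟩ := Finset.mem_image.1 hy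
          have hzw : z < w := by linarith
          have h5 : M + K + w - (M + K + z) = w - z := by ring
          rw [h5]
          obtain ⟨h3, h4⟩ := hS z hz w hw hzw
          obtain ⟨h6, h7⟩ := hLd z hz w hw hzw
          exact ⟨dvd_add (h6.trans hLMK) h3, dvd_add (h7.trans hLMK) h4⟩

end Pool.Agent.TH293.RatioClique
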